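import Pool.Agent.Lib.Fit_h28.MainThm

set_option autoImplicit false

namespace Fit28

open Subgroup

/-- a non-empty Fitting class of finite groups, all of whose members are soluble -/
structure SolFit (X : ∀ (G : Type) [Group G], Prop) : Prop where
  iso : ∀ (G H : Type) [Group G] [Group H] [Finite G], (G ≃* H) → X G → X H
  normal : ∀ (G : Type) [Group G] [Finite G], X G → ∀ N : Subgroup G, N.Normal → X ↥N
  sup : ∀ (G : Type) [Group G] [Finite G] (N M : Subgroup G),
    N.Normal → M.Normal → X ↥N → X ↥M → X ↥(N ⊔ M)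
  solv : ∀ (G : Type) [Group G] [Finite G], X G → Group.IsSolvable G
  ne : ∃ (G : Type) (_ : Group G), Finite G ∧ X G

variable {X : ∀ (G : Type) [Group G], Prop}

lemma SolFit.fam (hX : SolFit X) (G : Type) [Group G] [Finite G] :
    Fam (fun H : Subgroup G => X ↥H) where
  bot := by
    obtain ⟨G₀, i, hf, h0⟩ := hX.ne
    have h1 : X ↥(⊥ : Subgroup G₀) := hX.normal G₀ h0 ⊥ inferInstance
    exact hX.iso _ _ (MulEquiv.ofUnique : (⊥ : Subgroup G₀) ≃* (⊥ : Subgroup G)) h1
  conj := fun g H hH =>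
    hX.iso _ _ (H.equivMapOfInjective (MulAut.conj g).toMonoidHom (MulAut.conj g).injective) hH
  sub := fun H K hHK hn hK => by
    have h1 : (H.subgroupOf K).Normal := (normal_iff_nz hHK).mpr hn
    exact hX.iso _ _ (Subgroup.subgroupOfEquivOfLe hHK) (hX.normal _ hK _ h1)
  sup := fun H K nHK nKH hH hK => by
    have hHT : H ≤ H ⊔ K := le_sup_left
    have hKT : K ≤ H ⊔ K := le_sup_right
    have h1 : (H.subgroupOf (H ⊔ K)).Normal :=
      (normal_iff_nz hHT).mpr ((nz_self H).sup_left nKH)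
    have h2 : (K.subgroupOf (H ⊔ K)).Normal :=
      (normal_iff_nz hKT).mpr (nHK.sup_left (nz_self K))
    have h3 := hX.sup _ _ _ h1 h2 (hX.iso _ _ (Subgroup.subgroupOfEquivOfLe hHT).symm hH)
      (hX.iso _ _ (Subgroup.subgroupOfEquivOfLe hKT).symm hK)
    rw [← Subgroup.subgroupOf_sup hHT hKT, Subgroup.subgroupOf_self] at h3
    exact hX.iso _ _ Subgroup.topEquiv h3
  solv := fun H hH => hX.solv _ hH

/-- the graph argument: a Fitting class contains the quotients of prime order of its members -/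
lemma SolFit.quot (hX : SolFit X) {A : Type} [Group A] [Finite A] (hA : X A) {Q : Type}
    [Group Q] [Finite Q] (hc : ∀ a b : Q, a * b = b * a) (f : A →* Q)
    (hf : Function.Surjective f) : X Q := by
  -- the graph of `f`
  let γ : A →* A × Q := (MonoidHom.id A).prod f
  have hγ : Function.Injective γ := fun a b h => (Prod.ext_iff.mp h).1
  have hN : γ.range.Normal := by
    constructor
    rintro _ ⟨a, rfl⟩ ⟨b, c⟩
    refine ⟨b * a * b⁻¹, ?_⟩
    refine Prod.ext rfl ?_
    change f (b * a * b⁻¹) = c * f a * c⁻¹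
    rw [map_mul, map_mul, map_inv, hc (f b), mul_inv_cancel_right, hc c, mul_inv_cancel_right]
  let ι : A →* A × Q := MonoidHom.inl A Q
  have hι : Function.Injective ι := fun a b h => (Prod.ext_iff.mp h).1
  have hM : ι.range.Normal := by
    constructor
    rintro _ ⟨a, rfl⟩ ⟨b, c⟩
    refine ⟨b * a * b⁻¹, ?_⟩
    refine Prod.ext rfl ?_
    change (1 : Q) = c * 1 * c⁻¹
    rw [mul_one, mul_inv_cancel]
  have h1 := hX.sup _ _ _ hN hM (hX.iso _ _ (MonoidHom.ofInjective hγ) hA)
    (hX.iso _ _ (MonoidHom.ofInjective hι) hA)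
  have h2 : γ.range ⊔ ι.range = ⊤ := by
    rw [eq_top_iff]
    rintro ⟨b, c⟩ _
    obtain ⟨a, rfl⟩ := hf c
    have e : ((b, f a) : A × Q) = γ a * ι (a⁻¹ * b) := by
      refine Prod.ext ?_ ?_
      · change b = a * (a⁻¹ * b)
        rw [mul_inv_cancel_left]
      · change f a = f a * 1
        rw [mul_one]
    rw [e]
    exact mul_mem (le_sup_left (b := ι.range) ⟨a, rfl⟩) (le_sup_right (a := γ.range) ⟨_, rfl⟩)
  rw [h2] at h1
  have h3 : X (A × Q) := hX.iso _ _ Subgroup.topEquiv h1
  let κ : Q →* A × Q := MonoidHom.inr A Q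
  have hκ : Function.Injective κ := fun a b h => (Prod.ext_iff.mp h).2
  have hK : κ.range.Normal := by
    constructor
    rintro _ ⟨a, rfl⟩ ⟨b, c⟩
    refine ⟨c * a * c⁻¹, ?_⟩
    refine Prod.ext ?_ rfl
    change (1 : A) = b * 1 * b⁻¹
    rw [mul_one, mul_inv_cancel]
  exact hX.iso _ _ (MonoidHom.ofInjective hκ).symm (hX.normal _ h3 _ hK)

lemma SolFit.zmod (hX : SolFit X) {G : Type} [Group G] [Finite G] {p : ℕ} (hp : p.Prime)
    (h : HasIdx (fun H : Subgroup G => X ↥H) p) : X (Multiplicative (ZMod p)) := by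
  have : Fact p.Prime := ⟨hp⟩
  obtain ⟨A, A₁, hA, hle, hn, hidx⟩ := h
  have hN : (A₁.subgroupOf A).Normal := (normal_iff_nz hle).mpr hn
  have hcard : Nat.card (A ⧸ A₁.subgroupOf A) = p := hidx
  have hcard2 : Nat.card (Multiplicative (ZMod p)) = p :=
    (Nat.card_congr Multiplicative.toAdd).trans (Nat.card_zmod p)
  have : Finite (Multiplicative (ZMod p)) := Nat.finite_of_card_ne_zero (by
    rw [hcard2]; exact hp.ne_zero)
  have e : (A ⧸ A₁.subgroupOf A) ≃* Multiplicative (ZMod p) := mulEquivOfPrimeCardEq hcard hcard2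
  have hs : Function.Surjective
      (e.toMonoidHom.comp (QuotientGroup.mk' (A₁.subgroupOf A))) :=
    e.surjective.comp (QuotientGroup.mk'_surjective _)
  exact hX.quot hA (fun a b => mul_comm a b) _ hs

end Fit28
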