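import Pool.Agent.Lib.Fit_h28.Isol

set_option autoImplicit false

namespace Fit28

open Subgroup

universe u

section central

variable {H : Type*} [Group H] [Finite H]

/-- the set-up: every conjugate of `x` and every conjugate of `y` generate the group -/
def GenAll (x y : H) : Prop := ∀ g h : H, closure {g * x * g⁻¹, h * y * h⁻¹} = ⊤

omit [Finite H] in
lemma GenAll.symm {x y : H} (h : GenAll x y) : GenAll y x := fun g k => by
  rw [Set.pair_comm]; exact h k g

omit [Finite H] in
lemma GenAll.centralizer {x y v : H} (h : GenAll x y) (a b : H) (h1 : Commute v (a * x * a⁻¹))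
    (h2 : Commute v (b * y * b⁻¹)) : ∀ u : H, Commute v u := by
  have h3 : closure {a * x * a⁻¹, b * y * b⁻¹} ≤ Subgroup.centralizer {v} := by
    rw [closure_le]
    rintro z (rfl | rfl)
    · exact mem_centralizer_singleton_iff.mpr h1.symm.eq
    · exact mem_centralizer_singleton_iff.mpr h2.symm.eq
  rw [h a b] at h3
  intro u
  exact (mem_centralizer_singleton_iff.mp (h3 (mem_top u))).symm

/-- Frattini argument: a central element of order `p` -/
lemma GenAll.exists_central {p q : ℕ} [hp : Fact p.Prime] [hq : Fact q.Prime] {x y : H}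
    (hg : GenAll x y) (hx : orderOf x = p) (hy : orderOf y = q)
    (hix : Isol x) (hiy : Isol y) (M : Subgroup H) [M.Normal] (hyM : y ∈ M) (hxM : x ∉ M) :
    ∃ v : H, orderOf v = p ∧ ∀ u : H, Commute v u := by
  -- a Sylow subgroup of `M` containing `y`
  let y' : M := ⟨y, hyM⟩
  have hy' : orderOf y' = q := by rw [← hy]; exact (Subgroup.orderOf_coe y').symm
  obtain ⟨Q, hQ⟩ := (isPGroup_zpowers hy').exists_le_sylow
  have hyQ : y ∈ (Q : Subgroup M).map M.subtype := ⟨y', hQ (mem_zpowers y'), rfl⟩
  have hF := Sylow.normalizer_sup_eq_top Q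
  have hPQ : IsPGroup q ((Q : Subgroup M).map M.subtype) := Q.isPGroup'.map _
  have hle : normalizer ((Q : Subgroup M).map M.subtype : Set H) ≤ Subgroup.centralizer {y} := by
    intro u hu
    rw [mem_centralizer_singleton_iff]
    have h1 : u * y * u⁻¹ ∈ (Q : Subgroup M).map M.subtype :=
      (mem_normalizer_iff.mp hu y).mp hyQ
    have h2 : Commute y (u * y * u⁻¹) := hiy.comm_of_pGroup hPQ hyQ h1
    have h3 := hiy u h2
    calc u * y = (u * y * u⁻¹) * u := by group
      _ = y * u := by rw [h3]
  have hsup : Subgroup.centralizer {y} ⊔ M = ⊤ := by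
    rw [eq_top_iff, ← hF]
    exact sup_le_sup_right hle M
  -- `p` divides the order of the centralizer
  have hsurj : Function.Surjective
      ((QuotientGroup.mk' M).comp (Subgroup.centralizer ({y} : Set H)).subtype) := by
    intro z
    obtain ⟨w, rfl⟩ := QuotientGroup.mk'_surjective M z
    have hw : w ∈ Subgroup.centralizer {y} ⊔ M := by rw [hsup]; exact mem_top w
    rw [mem_sup_of_normal_right] at hw
    obtain ⟨c, hc, m, hm, rfl⟩ := hw
    refine ⟨⟨c, hc⟩, ?_⟩
    simp only [MonoidHom.comp_apply, coe_subtype, QuotientGroup.mk'_apply]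
    rw [QuotientGroup.eq]
    simpa using hm
  have hdvd : Nat.card (H ⧸ M) ∣ Nat.card (Subgroup.centralizer ({y} : Set H)) :=
    Subgroup.card_dvd_of_surjective _ hsurj
  have hord : orderOf (x : H ⧸ M) = p := by
    have h1 : orderOf (x : H ⧸ M) ∣ p := by
      rw [← hx]; exact orderOf_map_dvd (QuotientGroup.mk' M) x
    rcases (Nat.dvd_prime hp.out).mp h1 with h2 | h2
    · exfalso
      rw [orderOf_eq_one_iff, QuotientGroup.eq_one_iff] at h2
      exact hxM h2
    · exact h2
  have hpd : p ∣ Nat.card (Subgroup.centralizer ({y} : Set H)) :=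
    (hord ▸ orderOf_dvd_natCard (x : H ⧸ M)).trans hdvd
  obtain ⟨v, hv⟩ := exists_prime_orderOf_dvd_card' p hpd
  have hv' : orderOf (v : H) = p := by rw [← hv]; exact Subgroup.orderOf_coe v
  refine ⟨v, hv', ?_⟩
  obtain ⟨P, t, h1, h2⟩ := exists_sylow_conj (isPGroup_zpowers hv') (isPGroup_zpowers hx)
  have h3 : Commute (t * x * t⁻¹) (v : H) := (hix.conj t).comm_of_pGroup P.isPGroup' h2 h1
  refine hg.centralizer t 1 h3.symm ?_
  have h4 := v.2
  rw [mem_centralizer_singleton_iff] at h4
  simpa using (show Commute (v : H) y from h4)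

end central

lemma comm_of_central_commutator {H : Type*} [Group H] {p q : ℕ} (hpq : Nat.Coprime p q)
    {x y c : H} (hx : x ^ p = 1) (hy : y ^ q = 1) (hc : ∀ u, Commute c u)
    (h : x * y = c * (y * x)) : Commute x y := by
  have h1 : y⁻¹ * x * y = c * x := by
    have : x * y = y * (c * x) := by
      rw [h, ← mul_assoc, ← mul_assoc, (hc y).eq]
    rw [mul_assoc, this]; group
  have h2 : x * y * x⁻¹ = c * y := by rw [h]; group
  have h3 : c ^ p = 1 := by
    have : (y⁻¹ * x * y) ^ p = 1 := by
      have : y⁻¹ * x * y = y⁻¹ * x * y⁻¹⁻¹ := by group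
      rw [this, conj_pow, hx]; group
    rw [h1, (hc x).mul_pow, hx, mul_one] at this
    exact this
  have h4 : c ^ q = 1 := by
    have : (x * y * x⁻¹) ^ q = 1 := by rw [conj_pow, hy]; group
    rw [h2, (hc y).mul_pow, hy, mul_one] at this
    exact this
  have h5 : c = 1 := by
    have h6 : orderOf c ∣ Nat.gcd p q :=
      Nat.dvd_gcd (orderOf_dvd_of_pow_eq_one h3) (orderOf_dvd_of_pow_eq_one h4)
    rw [hpq, Nat.dvd_one, orderOf_eq_one_iff] at h6
    exact h6
  rw [h5, one_mul] at h
  exact h

/-- Elementary reduction to simple groups. -/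
theorem isol_dichotomy (n : ℕ) : ∀ (H : Type u) [Group H] [Finite H], Nat.card H = n →
    ∀ (p q : ℕ), p.Prime → q.Prime → p ≠ q → ∀ x y : H, orderOf x = p → orderOf y = q →
    Isol x → Isol y → (∃ g : H, Commute x (g * y * g⁻¹)) ∨ BadSec H p q := by
  induction n using Nat.strong_induction_on with
  | _ n ih =>
  intro H _ _ hn p q hp hq hpq x y hx hy hix hiy
  have : Fact p.Prime := ⟨hp⟩
  have : Fact q.Prime := ⟨hq⟩
  have hcop : Nat.Coprime p q := (Nat.coprime_primes hp hq).mpr hpq
  by_cases hgen : GenAll x y
  swap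
  · -- pass to a proper subgroup
    unfold GenAll at hgen
    push Not at hgen
    obtain ⟨g, h, hgh⟩ := hgen
    set K := closure {g * x * g⁻¹, h * y * h⁻¹} with hK
    have hlt : Nat.card K < n := by
      rw [← hn]
      exact lt_of_le_of_ne (Subgroup.card_le_card_group K) fun e =>
        hgh (Subgroup.eq_top_of_card_eq K e)
    have hxK : g * x * g⁻¹ ∈ K := subset_closure (Set.mem_insert _ _)
    have hyK : h * y * h⁻¹ ∈ K := subset_closure (Set.mem_insert_of_mem _ rfl)
    have h1 := ih _ hlt K rfl p q hp hq hpq ⟨_, hxK⟩ ⟨_, hyK⟩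
      (by rw [← hx, ← orderOf_conj' g x]; exact (Subgroup.orderOf_coe _).symm)
      (by rw [← hy, ← orderOf_conj' h y]; exact (Subgroup.orderOf_coe _).symm)
      (Isol.sub (x := ⟨_, hxK⟩) (hix.conj g)) (Isol.sub (x := ⟨_, hyK⟩) (hiy.conj h))
    rcases h1 with ⟨k, hk⟩ | hbad
    · left
      refine ⟨g⁻¹ * k * h, ?_⟩
      have h2 := congrArg Subtype.val hk.eq
      simp only [Subgroup.coe_mul, Subgroup.coe_inv] at h2
      unfold Commute SemiconjBy
      calc x * (g⁻¹ * k * h * y * (g⁻¹ * k * h)⁻¹)
          = g⁻¹ * (g * x * g⁻¹ * ((k : H) * (h * y * h⁻¹) * (k : H)⁻¹)) * g := by group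
        _ = g⁻¹ * ((k : H) * (h * y * h⁻¹) * (k : H)⁻¹ * (g * x * g⁻¹)) * g := by rw [h2]
        _ = g⁻¹ * k * h * y * (g⁻¹ * k * h)⁻¹ * x := by group
    · right
      exact hbad.of_section (IsSection.subgroup K)
  -- abelian quotient
  have quot : ∀ N : Subgroup H, N.Normal → N ≠ ⊥ → x ∉ N → y ∉ N →
      ((∃ g : H, Commute x (g * y * g⁻¹)) ∨ BadSec H p q) ∨
        (∀ a b : H, a * b * (b * a)⁻¹ ∈ N) := by
    intro N hN hNb hxN hyN
    have hlt : Nat.card (H ⧸ N) < n := by
      rw [← hn, Subgroup.card_eq_card_quotient_mul_card_subgroup N]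
      have h1 : 1 < Nat.card N := (Subgroup.one_lt_card_iff_ne_bot N).mpr hNb
      have h2 : 0 < Nat.card (H ⧸ N) := Nat.card_pos
      nlinarith
    have ho : ∀ {r : ℕ} {z : H}, r.Prime → orderOf z = r → z ∉ N → orderOf (z : H ⧸ N) = r := by
      intro r z hr hz hzN
      have h1 : orderOf (z : H ⧸ N) ∣ r := by
        rw [← hz]; exact orderOf_map_dvd (QuotientGroup.mk' N) z
      rcases (Nat.dvd_prime hr).mp h1 with h2 | h2
      · exact absurd ((QuotientGroup.eq_one_iff z).mp (orderOf_eq_one_iff.mp h2)) hzN
      · exact h2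
    rcases ih _ hlt (H ⧸ N) rfl p q hp hq hpq x y (ho hp hx hxN) (ho hq hy hyN)
      (hix.quotient hx N) (hiy.quotient hy N) with ⟨g, hg⟩ | hbad
    · right
      obtain ⟨k, rfl⟩ := QuotientGroup.mk_surjective g
      -- everything commutes modulo `N`
      have step : ∀ v w : H, (v = x ∨ v = k * y * k⁻¹) → (w = x ∨ w = k * y * k⁻¹) →
          Commute (v : H ⧸ N) (w : H ⧸ N) := by
        have hg' : Commute (x : H ⧸ N) ((k * y * k⁻¹ : H) : H ⧸ N) := by simpa using hg
        rintro v w (rfl | rfl) (rfl | rfl)
        · exact Commute.refl _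
        · exact hg'
        · exact hg'.symm
        · exact Commute.refl _
      have hcl : closure {x, k * y * k⁻¹} = ⊤ := by simpa using hgen 1 k
      have step2 : ∀ v : H, (v = x ∨ v = k * y * k⁻¹) → ∀ b : H, Commute (v : H ⧸ N) (b : H ⧸ N) := by
        intro v hv b
        have h3 : closure {x, k * y * k⁻¹} ≤
            (Subgroup.centralizer {(v : H ⧸ N)}).comap (QuotientGroup.mk' N) := by
          rw [closure_le]
          intro z hz
          simp only [coe_comap, Set.mem_preimage, QuotientGroup.mk'_apply, SetLike.mem_coe,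
            mem_centralizer_singleton_iff]
          exact (step v z hv hz).symm.eq
        rw [hcl] at h3
        have := h3 (mem_top b)
        simp only [mem_comap, QuotientGroup.mk'_apply, mem_centralizer_singleton_iff] at this
        exact (show Commute (b : H ⧸ N) (v : H ⧸ N) from this).symm
      intro a b
      have h4 : closure {x, k * y * k⁻¹} ≤
          (Subgroup.centralizer {(b : H ⧸ N)}).comap (QuotientGroup.mk' N) := by
        rw [closure_le]
        intro z hz
        simp only [coe_comap, Set.mem_preimage, QuotientGroup.mk'_apply, SetLike.mem_coe,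
          mem_centralizer_singleton_iff]
        exact (step2 z hz b).eq
      rw [hcl] at h4
      have := h4 (mem_top a)
      simp only [mem_comap, QuotientGroup.mk'_apply, mem_centralizer_singleton_iff] at this
      rw [← QuotientGroup.eq_one_iff]
      have h5 : ((a * b : H) : H ⧸ N) = ((b * a : H) : H ⧸ N) := by simpa using this
      rw [QuotientGroup.mk_mul, QuotientGroup.mk_inv, h5, mul_inv_cancel]
    · left; right
      exact hbad.of_section (IsSection.quotient N)
  -- a central element of order `p` or `q`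
  have cent : ∀ (r : ℕ) (v : H), r.Prime → orderOf v = r → (∀ u, Commute v u) →
      (∃ g : H, Commute x (g * y * g⁻¹)) ∨ BadSec H p q := by
    intro r v hr hv hvc
    have hN : (zpowers v).Normal := by
      constructor
      intro z hz g
      obtain ⟨k, rfl⟩ := mem_zpowers_iff.mp hz
      have : Commute (v ^ k) g := (hvc g).zpow_left k
      have : g * v ^ k * g⁻¹ = v ^ k := by rw [← this.eq, mul_inv_cancel_right]
      rw [this]
      exact hz
    have hNb : zpowers v ≠ ⊥ := by
      intro h
      rw [zpowers_eq_bot] at h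
      rw [h, orderOf_one] at hv
      exact hr.one_lt.ne hv
    have hcen : ∀ z ∈ zpowers v, ∀ u, Commute z u := by
      intro z hz u
      obtain ⟨k, rfl⟩ := mem_zpowers_iff.mp hz
      exact (hvc u).zpow_left k
    by_cases hxN : x ∈ zpowers v
    · left; exact ⟨1, hcen x hxN _⟩
    by_cases hyN : y ∈ zpowers v
    · left; exact ⟨1, by simpa using (hcen y hyN x).symm⟩
    rcases quot _ hN hNb hxN hyN with h | h
    · exact h
    · left
      refine ⟨1, ?_⟩
      have h1 := h x y
      have h2 : Commute x y := comm_of_central_commutator hcop (c := x * y * (y * x)⁻¹)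
        (by rw [← hx]; exact pow_orderOf_eq_one x) (by rw [← hy]; exact pow_orderOf_eq_one y)
        (hcen _ h1) (by group)
      simpa using h2
  by_cases hs : IsSimpleGroup H
  · by_cases hab : ∃ a b : H, a * b ≠ b * a
    · right
      exact ⟨H, inferInstance, IsSection.refl H, hs, hab, x, y, hx, hy, hix, hiy, hgen⟩
    · left
      push Not at hab
      exact ⟨1, hab _ _⟩
  · -- a proper nontrivial normal subgroup
    have hnt : Nontrivial H := ⟨x, 1, fun h => by
      rw [h, orderOf_one] at hx; exact hp.one_lt.ne hx⟩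
    have : ∃ N : Subgroup H, N.Normal ∧ N ≠ ⊥ ∧ N ≠ ⊤ := by
      by_contra hcon
      push Not at hcon
      apply hs
      refine @IsSimpleGroup.mk H _ hnt ?_
      intro N hN
      by_cases h : N = ⊥
      · exact Or.inl h
      · exact Or.inr (hcon N hN h)
    obtain ⟨N, hN, hNb, hNt⟩ := this
    by_cases hxN : x ∈ N
    · by_cases hyN : y ∈ N
      · exfalso
        apply hNt
        rw [eq_top_iff, ← hgen 1 1, closure_le]
        rintro z (rfl | rfl)
        · simpa using hxN
        · simpa using hyN
      · obtain ⟨v, hv, hvc⟩ := hgen.symm.exists_central hy hx hiy hix N hxN hyN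
        exact cent q v hq hv hvc
    · by_cases hyN : y ∈ N
      · obtain ⟨v, hv, hvc⟩ := hgen.exists_central hx hy hix hiy N hyN hxN
        exact cent p v hp hv hvc
      · rcases quot N hN hNb hxN hyN with h | h
        · exact h
        · -- the quotient is abelian
          have hM : (N ⊔ zpowers y).Normal := by
            constructor
            intro z hz g
            have h1 := le_sup_left (a := N) (b := zpowers y) (h g z)
            have : g * z * g⁻¹ = (g * z * (z * g)⁻¹) * z := by group
            rw [this]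
            exact mul_mem h1 hz
          have hyM : y ∈ N ⊔ zpowers y := le_sup_right (a := N) (mem_zpowers y)
          have hxM : x ∉ N ⊔ zpowers y := by
            intro hxM
            rw [mem_sup_of_normal_left] at hxM
            obtain ⟨m, hm, z, hz, hmz⟩ := hxM
            -- modulo `N`, `x = z`, a power of `y`
            have h1 : (x : H ⧸ N) = (z : H ⧸ N) := by
              rw [← hmz, QuotientGroup.mk_mul, (QuotientGroup.eq_one_iff m).mpr hm, one_mul]
            have h2 : orderOf (x : H ⧸ N) ∣ p := by
              rw [← hx]; exact orderOf_map_dvd (QuotientGroup.mk' N) x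
            have h3 : orderOf (x : H ⧸ N) ∣ q := by
              rw [h1, ← hy]
              refine (orderOf_map_dvd (QuotientGroup.mk' N) z).trans ?_
              obtain ⟨k, rfl⟩ := mem_zpowers_iff.mp hz
              exact orderOf_dvd_of_pow_eq_one (by
                rw [← zpow_natCast, ← zpow_mul, mul_comm, zpow_mul, zpow_natCast,
                  pow_orderOf_eq_one, one_zpow])
            have h4 := Nat.dvd_gcd h2 h3
            rw [hcop, Nat.dvd_one, orderOf_eq_one_iff, QuotientGroup.eq_one_iff] at h4
            exact hxN h4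
          obtain ⟨v, hv, hvc⟩ := hgen.exists_central hx hy hix hiy _ hyM hxM
          exact cent p v hp hv hvc

end Fit28
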