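import Pool.Agent.Lib.Fit_h28.Dich

set_option autoImplicit false

namespace Fit28

open Subgroup

universe u

section defs

variable {G : Type*} [Group G]

/-- `A` normalises `B` -/
def Nz (A B : Subgroup G) : Prop := ∀ a ∈ A, ∀ b ∈ B, a * b * a⁻¹ ∈ B

/-- the commutators of `A` and `B` lie in `E` -/
def Cm (A B E : Subgroup G) : Prop := ∀ a ∈ A, ∀ b ∈ B, a * b * a⁻¹ * b⁻¹ ∈ E

/-- conjugate subgroup -/
def cj (g : G) (H : Subgroup G) : Subgroup G := H.map (MulAut.conj g).toMonoidHom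

lemma mem_cj {g x : G} {H : Subgroup G} : x ∈ cj g H ↔ g⁻¹ * x * g ∈ H := by
  unfold cj
  rw [Subgroup.mem_map]
  constructor
  · rintro ⟨y, hy, rfl⟩
    have : g⁻¹ * (MulAut.conj g).toMonoidHom y * g = y := by
      change g⁻¹ * (g * y * g⁻¹) * g = y
      group
    rw [this]; exact hy
  · intro h
    exact ⟨_, h, by change g * (g⁻¹ * x * g) * g⁻¹ = x; group⟩

lemma conj_mem_cj {g x : G} {H : Subgroup G} (hx : x ∈ H) : g * x * g⁻¹ ∈ cj g H := by
  rw [mem_cj]; simpa [mul_assoc] using hx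

lemma cj_mono {g : G} {H K : Subgroup G} (h : H ≤ K) : cj g H ≤ cj g K := Subgroup.map_mono h

lemma cj_mul (g h : G) (H : Subgroup G) : cj (g * h) H = cj g (cj h H) := by
  ext x; simp only [mem_cj]
  rw [show (g * h)⁻¹ * x * (g * h) = h⁻¹ * (g⁻¹ * x * g) * h by group]

lemma cj_one (H : Subgroup G) : cj 1 H = H := by ext x; simp [mem_cj]

lemma cj_sup (g : G) (H K : Subgroup G) : cj g (H ⊔ K) = cj g H ⊔ cj g K := Subgroup.map_sup _ _ _

lemma cj_inf (g : G) (H K : Subgroup G) : cj g (H ⊓ K) = cj g H ⊓ cj g K := by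
  ext x; simp only [mem_cj, Subgroup.mem_inf]

lemma Nz.inv {A B : Subgroup G} (h : Nz A B) {a b : G} (ha : a ∈ A) (hb : b ∈ B) :
    a⁻¹ * b * a ∈ B := by
  have := h a⁻¹ (inv_mem ha) b hb
  simpa using this

lemma Nz.cj_eq {A B : Subgroup G} (h : Nz A B) {a : G} (ha : a ∈ A) : cj a B = B := by
  ext x
  rw [mem_cj]
  constructor
  · intro hx
    have := h a ha _ hx
    have e : a * (a⁻¹ * x * a) * a⁻¹ = x := by group
    rwa [e] at this
  · intro hx
    exact h.inv ha hx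

lemma nz_self (A : Subgroup G) : Nz A A := fun _ ha _ hb => mul_mem (mul_mem ha hb) (inv_mem ha)

lemma nz_of_le {A B : Subgroup G} (h : A ≤ B) : Nz A B := fun _ ha _ hb =>
  mul_mem (mul_mem (h ha) hb) (inv_mem (h ha))

lemma nz_iff {A B : Subgroup G} : Nz A B ↔ A ≤ normalizer (B : Set G) := by
  rw [Subgroup.le_normalizer_iff]; rfl

lemma Nz.mono {A A' B : Subgroup G} (h : Nz A B) (h' : A' ≤ A) : Nz A' B :=
  fun a ha b hb => h a (h' ha) b hb

lemma Nz.inf {A B C : Subgroup G} (h1 : Nz A B) (h2 : Nz A C) : Nz A (B ⊓ C) :=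
  fun a ha b hb => ⟨h1 a ha b hb.1, h2 a ha b hb.2⟩

lemma Nz.sup_left {A B C : Subgroup G} (h1 : Nz A C) (h2 : Nz B C) : Nz (A ⊔ B) C := by
  rw [nz_iff] at *
  exact sup_le h1 h2

lemma Nz.sup_right {A B C : Subgroup G} (h1 : Nz A B) (h2 : Nz A C) : Nz A (B ⊔ C) := by
  intro a ha x hx
  have e : cj a (B ⊔ C) = B ⊔ C := by rw [cj_sup, h1.cj_eq ha, h2.cj_eq ha]
  rw [← e]
  exact conj_mem_cj hx

lemma Nz.iSup {ι : Sort*} {A : Subgroup G} {B : ι → Subgroup G} (h : ∀ i, Nz A (B i)) :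
    Nz A (⨆ i, B i) := by
  intro a ha x hx
  have e : cj a (⨆ i, B i) = ⨆ i, B i := by
    unfold cj
    rw [Subgroup.map_iSup]
    exact iSup_congr fun i => (h i).cj_eq ha
  rw [← e]
  exact conj_mem_cj hx

lemma nz_cj {g : G} {A B : Subgroup G} (h : Nz A B) : Nz (cj g A) (cj g B) := by
  intro a ha b hb
  rw [mem_cj] at *
  have := h _ ha _ hb
  have e : g⁻¹ * a * g * (g⁻¹ * b * g) * (g⁻¹ * a * g)⁻¹ = g⁻¹ * (a * b * a⁻¹) * g := by group
  rwa [e] at this

lemma mem_sup_of_nz {A B : Subgroup G} (h : Nz A B) {x : G} :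
    x ∈ A ⊔ B ↔ ∃ a ∈ A, ∃ b ∈ B, a * b = x := by
  rw [← SetLike.mem_coe, Subgroup.coe_mul_of_left_le_normalizer_right A B (nz_iff.mp h),
    Set.mem_mul]
  rfl

lemma Cm.symm {A B E : Subgroup G} (h : Cm A B E) : Cm B A E := fun b hb a ha => by
  have := inv_mem (h a ha b hb)
  have e : (a * b * a⁻¹ * b⁻¹)⁻¹ = b * a * b⁻¹ * a⁻¹ := by group
  rwa [e] at this

lemma Cm.mono {A A' B B' E E' : Subgroup G} (h : Cm A B E) (hA : A' ≤ A) (hB : B' ≤ B)
    (hE : E ≤ E') : Cm A' B' E' := fun a ha b hb => hE (h a (hA ha) b (hB hb))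

lemma Cm.nz_right {A B E : Subgroup G} (h : Cm A B E) (hE : E ≤ B) : Nz A B :=
  fun a ha b hb => by
    have := mul_mem (hE (h a ha b hb)) hb
    simpa using this

lemma Cm.nz_left {A B E : Subgroup G} (h : Cm A B E) (hE : E ≤ A) : Nz B A :=
  h.symm.nz_right hE

lemma Cm.cj {A B E : Subgroup G} (h : Cm A B E) (g : G) : Cm (cj g A) (cj g B) (cj g E) := by
  intro a ha b hb
  rw [mem_cj] at *
  have := h _ ha _ hb
  have e : g⁻¹ * a * g * (g⁻¹ * b * g) * (g⁻¹ * a * g)⁻¹ * (g⁻¹ * b * g)⁻¹ =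
      g⁻¹ * (a * b * a⁻¹ * b⁻¹) * g := by group
  rwa [e] at this

/-- commutator relations from products on the right -/
lemma Cm.sup_right {A B C E : Subgroup G} (h1 : Cm A B E) (h2 : Cm A C E) (hBE : Nz B E)
    (hBC : Nz B C) : Cm A (B ⊔ C) E := by
  intro a ha x hx
  obtain ⟨b, hb, c, hc, rfl⟩ := (mem_sup_of_nz hBC).mp hx
  have e : a * (b * c) * a⁻¹ * (b * c)⁻¹ =
      (a * b * a⁻¹ * b⁻¹) * (b * (a * c * a⁻¹ * c⁻¹) * b⁻¹) := by group
  rw [e]
  exact mul_mem (h1 a ha b hb) (hBE b hb _ (h2 a ha c hc))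

lemma Cm.sup_left {A B C E : Subgroup G} (h1 : Cm B A E) (h2 : Cm C A E) (hBE : Nz B E)
    (hBC : Nz B C) : Cm (B ⊔ C) A E := (h1.symm.sup_right h2.symm hBE hBC).symm

/-- a family of subgroups with the closure properties of a soluble Fitting class -/
structure Fam (X : Subgroup G → Prop) : Prop where
  bot : X ⊥
  conj : ∀ g H, X H → X (cj g H)
  sub : ∀ H K, H ≤ K → Nz K H → X K → X H
  sup : ∀ H K, Nz H K → Nz K H → X H → X K → X (H ⊔ K)
  solv : ∀ H, X H → Group.IsSolvable H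

/-- a member of `X` has a normal subgroup of index `p` -/
def HasIdx (X : Subgroup G → Prop) (p : ℕ) : Prop :=
  ∃ A A₁ : Subgroup G, X A ∧ A₁ ≤ A ∧ Nz A A₁ ∧ A₁.relIndex A = p

lemma relIndex_sup_of_nz {H K : Subgroup G} (h : Nz H K) : K.relIndex (H ⊔ K) = K.relIndex H := by
  set T := H ⊔ K with hT
  have hK : K ≤ T := le_sup_right
  have hH : H ≤ T := le_sup_left
  have hn : (K.subgroupOf T).Normal := by
    rw [Subgroup.normal_subgroupOf_iff_le_normalizer hK, ← nz_iff]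
    exact h.sup_left (nz_self K)
  have h1 := Subgroup.relIndex_sup_right (H.subgroupOf T) (K.subgroupOf T)
  rw [← Subgroup.subgroupOf_sup hH hK, ← hT, Subgroup.subgroupOf_self,
    Subgroup.relIndex_top_right, Subgroup.relIndex_subgroupOf hH] at h1
  exact h1

end defs

/-- The base case, in the quotient: `x`, `y` of prime orders. -/
theorem base_case {H : Type u} [Group H] [Finite H] {X : Subgroup H → Prop} (hX : Fam X)
    (D : Subgroup H) [hD : D.Normal] {p q : ℕ} (hp : p.Prime) (hq : q.Prime) {x y : H}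
    (hx : orderOf x = p) (hy : orderOf y = q) (hXx : X (zpowers x)) (hXy : X (zpowers y))
    (hxy : x * y * x⁻¹ * y⁻¹ ∈ D) (htop : D ⊔ zpowers x ⊔ zpowers y = ⊤)
    (hgood : ∀ F, X F → F ≤ D → F = ⊥) (hbad : p ≠ q → ¬ BadSec H p q) :
    ∃ d ∈ D, Commute x (d * y * d⁻¹) := by
  have : Fact p.Prime := ⟨hp⟩
  have : Fact q.Prime := ⟨hq⟩
  -- the quotient by `D` is abelian
  have hc : ∀ v w : H, (v = x ∨ v = y) → (w = x ∨ w = y) →
      Commute (v : H ⧸ D) (w : H ⧸ D) := by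
    have h0 : Commute (x : H ⧸ D) (y : H ⧸ D) := by
      have h1 : ((x * y * x⁻¹ * y⁻¹ : H) : H ⧸ D) = 1 := (QuotientGroup.eq_one_iff _).mpr hxy
      have h2 : (x : H ⧸ D) * y * (x : H ⧸ D)⁻¹ * (y : H ⧸ D)⁻¹ = 1 := by simpa using h1
      unfold Commute SemiconjBy
      rw [← mul_inv_eq_one]
      rw [← h2]; group
    rintro v w (rfl | rfl) (rfl | rfl)
    · exact Commute.refl _
    · exact h0
    · exact h0.symm
    · exact Commute.refl _
  have hcent : ∀ v : H, (v = x ∨ v = y) → ∀ b : H, Commute (b : H ⧸ D) (v : H ⧸ D) := by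
    intro v hv b
    have h3 : D ⊔ zpowers x ⊔ zpowers y ≤
        (Subgroup.centralizer {(v : H ⧸ D)}).comap (QuotientGroup.mk' D) := by
      refine sup_le (sup_le ?_ ?_) ?_
      · intro d hd
        simp only [mem_comap, QuotientGroup.mk'_apply, mem_centralizer_singleton_iff]
        rw [(QuotientGroup.eq_one_iff d).mpr hd]; simp
      · rw [zpowers_le]
        simp only [mem_comap, QuotientGroup.mk'_apply, mem_centralizer_singleton_iff]
        exact (hc x v (Or.inl rfl) hv).eq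
      · rw [zpowers_le]
        simp only [mem_comap, QuotientGroup.mk'_apply, mem_centralizer_singleton_iff]
        exact (hc y v (Or.inr rfl) hv).eq
    rw [htop] at h3
    have := h3 (mem_top b)
    simp only [mem_comap, QuotientGroup.mk'_apply, mem_centralizer_singleton_iff] at this
    exact this
  have hcomm : ∀ a v : H, (v = x ∨ v = y) → a * v * a⁻¹ * v⁻¹ ∈ D := by
    intro a v hv
    rw [← QuotientGroup.eq_one_iff]
    have h1 := (hcent v hv a).eq
    have h2 : ((a * v * a⁻¹ * v⁻¹ : H) : H ⧸ D) =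
      ((a : H ⧸ D) * v) * (a : H ⧸ D)⁻¹ * (v : H ⧸ D)⁻¹ := by simp
    rw [h2, h1]; group
  -- isolated elements
  have hiso : ∀ v : H, (v = x ∨ v = y) → X (zpowers v) → Isol v := by
    intro v hv hXv g hg
    set v' := g * v * g⁻¹ with hv'
    have hXv' : X (zpowers v') := by
      have e : cj g (zpowers v) = zpowers v' := by
        unfold cj
        rw [MonoidHom.map_zpowers]
        rfl
      rw [← e]
      exact hX.conj g _ hXv
    have hcm : ∀ a ∈ zpowers v, ∀ b ∈ zpowers v', Commute a b := by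
      intro a ha b hb
      obtain ⟨k, rfl⟩ := mem_zpowers_iff.mp ha
      obtain ⟨l, rfl⟩ := mem_zpowers_iff.mp hb
      exact hg.zpow_zpow k l
    have h1 : Nz (zpowers v) (zpowers v') := fun a ha b hb => by
      rw [(hcm a ha b hb).eq, mul_inv_cancel_right]; exact hb
    have h2 : Nz (zpowers v') (zpowers v) := fun b hb a ha => by
      rw [← (hcm a ha b hb).eq, mul_inv_cancel_right]; exact ha
    have h3 := hX.sup _ _ h1 h2 hXv hXv'
    have h4 : X ((zpowers v ⊔ zpowers v') ⊓ D) := by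
      refine hX.sub _ _ inf_le_left ?_ h3
      exact (nz_self _).inf (fun a _ b hb => hD.conj_mem b hb a)
    have h5 := hgood _ h4 inf_le_right
    have h6 : v' * v⁻¹ ∈ (zpowers v ⊔ zpowers v') ⊓ D := by
      refine ⟨mul_mem (le_sup_right (a := zpowers v) (mem_zpowers v'))
        (le_sup_left (b := zpowers v') (inv_mem (mem_zpowers v))), ?_⟩
      have := hcomm g v hv
      rwa [← hv'] at this
    rw [h5, mem_bot, mul_inv_eq_one] at h6
    exact h6
  have hix := hiso x (Or.inl rfl) hXx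
  have hiy := hiso y (Or.inr rfl) hXy
  have hex : ∃ g : H, Commute x (g * y * g⁻¹) := by
    by_cases hpq : p = q
    · subst hpq
      obtain ⟨P, t, h1, h2⟩ := exists_sylow_conj (isPGroup_zpowers hx) (isPGroup_zpowers hy)
      exact ⟨t, hix.comm_of_pGroup P.isPGroup' h1 h2⟩
    · rcases isol_dichotomy _ H rfl p q hp hq hpq x y hx hy hix hiy with h | h
      · exact h
      · exact absurd h (hbad hpq)
  obtain ⟨g, hg⟩ := hex
  -- put the conjugating element into `D`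
  have hN : (D ⊔ zpowers x).Normal := by
    constructor
    intro z hz a
    rw [mem_sup_of_normal_left] at hz
    obtain ⟨m, hm, b, hb, rfl⟩ := hz
    have h1 : a * b * a⁻¹ * b⁻¹ ∈ D := by
      obtain ⟨k, rfl⟩ := mem_zpowers_iff.mp hb
      rw [← QuotientGroup.eq_one_iff]
      have h1 := ((hcent x (Or.inl rfl) a).zpow_right k).eq
      have h2 : ((a * x ^ k * a⁻¹ * (x ^ k)⁻¹ : H) : H ⧸ D) =
        ((a : H ⧸ D) * (x : H ⧸ D) ^ k) * (a : H ⧸ D)⁻¹ * ((x : H ⧸ D) ^ k)⁻¹ := by simp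
      rw [h2, h1]; group
    have e : a * (m * b) * a⁻¹ = (a * m * a⁻¹) * ((a * b * a⁻¹ * b⁻¹) * b) := by group
    rw [e]
    exact mul_mem (le_sup_left (b := zpowers x) (hD.conj_mem m hm a))
      (mul_mem (le_sup_left (b := zpowers x) h1) (le_sup_right (a := D) hb))
  have hg1 : g ∈ (D ⊔ zpowers x) ⊔ zpowers y := by rw [htop]; exact mem_top g
  rw [mem_sup_of_normal_left] at hg1
  obtain ⟨m, hm, b, hb, rfl⟩ := hg1
  rw [sup_comm, mem_sup_of_normal_right] at hm
  obtain ⟨a, ha, d, hd, rfl⟩ := hm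
  refine ⟨d, hd, ?_⟩
  obtain ⟨k, rfl⟩ := mem_zpowers_iff.mp ha
  obtain ⟨l, rfl⟩ := mem_zpowers_iff.mp hb
  have e1 : x ^ k * d * y ^ l * y * (x ^ k * d * y ^ l)⁻¹ =
      x ^ k * (d * y * d⁻¹) * (x ^ k)⁻¹ := by
    have : y ^ l * y * (y ^ l)⁻¹ = y := by
      rw [((Commute.refl y).zpow_left l).eq, mul_inv_cancel_right]
    calc x ^ k * d * y ^ l * y * (x ^ k * d * y ^ l)⁻¹
        = x ^ k * (d * (y ^ l * y * (y ^ l)⁻¹) * d⁻¹) * (x ^ k)⁻¹ := by group
      _ = _ := by rw [this]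
  rw [e1] at hg
  have h7 : Commute x (x ^ k) := (Commute.refl x).zpow_right k
  have h8 : d * y * d⁻¹ = (x ^ k)⁻¹ * (x ^ k * (d * y * d⁻¹) * (x ^ k)⁻¹) * x ^ k := by group
  rw [h8]
  exact (h7.inv_right.mul_right hg).mul_right h7

end Fit28
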