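import Pool.Agent.Lib.Fit_h28.Isol

set_option autoImplicit false

namespace Fit28

open Subgroup

lemma hom_trivial_of_simple {S A : Type*} [Group S] [CommGroup A] [IsSimpleGroup S]
    (hne : ∃ a b : S, a * b ≠ b * a) (f : S →* A) (x : S) : f x = 1 := by
  rcases (inferInstance : IsSimpleGroup S).eq_bot_or_eq_top_of_normal f.ker inferInstance with h | h
  · exfalso
    obtain ⟨a, b, hab⟩ := hne
    apply hab
    have hinj := (MonoidHom.ker_eq_bot_iff f).mp h
    apply hinj
    rw [map_mul, map_mul, mul_comm]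
  · have : x ∈ f.ker := by rw [h]; exact mem_top x
    exact this

/-- an isolated element of prime order `p` in a nonabelian simple group lies in the derived
subgroup of every Sylow `p`-subgroup which contains it (transfer). -/
theorem mem_commutator_of_isol {S : Type*} [Group S] [Finite S] [IsSimpleGroup S]
    (hne : ∃ a b : S, a * b ≠ b * a) {p : ℕ} [hp : Fact p.Prime] {x : S} (hx : orderOf x = p)
    (hi : Isol x) (P : Sylow p S) (hxP : x ∈ P) : x ∈ ⁅(P : Subgroup S), (P : Subgroup S)⁆ := by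
  have hxP' : x ∈ (P : Subgroup S) := hxP
  let ϕ : (P : Subgroup S) →* Abelianization (P : Subgroup S) := Abelianization.of
  have key : ∀ (k : ℕ) (g₀ : S), g₀⁻¹ * x ^ k * g₀ ∈ (P : Subgroup S) →
      g₀⁻¹ * x ^ k * g₀ = x ^ k := by
    intro k g₀ hk
    by_cases hpk : p ∣ k
    · obtain ⟨l, rfl⟩ := hpk
      have : x ^ (p * l) = 1 := by rw [pow_mul, ← hx, pow_orderOf_eq_one, one_pow]
      rw [this]; group
    · -- `x` is a power of `x ^ k`
      have hcop : Nat.Coprime (orderOf x) k := by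
        rw [hx]; exact (Nat.Prime.coprime_iff_not_dvd hp.out).mpr hpk
      obtain ⟨m, hm⟩ := exists_pow_eq_self_of_coprime hcop.symm
      have h1 : (g₀⁻¹ * x ^ k * g₀) ^ m = g₀⁻¹ * x * g₀ := by
        have := conj_pow (i := m) (a := g₀⁻¹) (b := x ^ k)
        rw [inv_inv] at this
        rw [this, hm]
      have h2 : g₀⁻¹ * x * g₀ ∈ (P : Subgroup S) := by
        rw [← h1]; exact pow_mem hk m
      have h3 : g₀⁻¹ * x * g₀⁻¹⁻¹ = x := by
        apply hi
        apply hi.comm_of_pGroup P.isPGroup' hxP'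
        rw [inv_inv]; exact h2
      rw [inv_inv] at h3
      have h4 : g₀⁻¹ * x ^ k * g₀ = (g₀⁻¹ * x * g₀) ^ k := by
        have := conj_pow (i := k) (a := g₀⁻¹) (b := x)
        rw [inv_inv] at this
        exact this.symm
      rw [h4, h3]
  have h1 := MonoidHom.transfer_eq_pow ϕ x key
  rw [hom_trivial_of_simple hne] at h1
  have h2 : (⟨x ^ (P : Subgroup S).index, MonoidHom.transfer_eq_pow_aux x key⟩ :
      (P : Subgroup S)) ∈ commutator (P : Subgroup S) := by
    rw [← Abelianization.ker_of]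
    exact h1.symm
  have h3 : x ^ (P : Subgroup S).index ∈ ⁅(P : Subgroup S), (P : Subgroup S)⁆ := by
    rw [← map_subtype_commutator]
    exact ⟨_, h2, rfl⟩
  have hcop : Nat.Coprime (orderOf x) (P : Subgroup S).index := by
    rw [hx]
    exact (Nat.Prime.coprime_iff_not_dvd hp.out).mpr P.not_dvd_index
  obtain ⟨m, hm⟩ := exists_pow_eq_self_of_coprime hcop.symm
  rw [← hm]
  exact pow_mem h3 m

/-- if a section has a Sylow `p`-subgroup with a nontrivial commutator subgroup, then the Sylow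
`p`-subgroups of the group are not commutative -/
theorem sylow_nonabelian_of_section {S G : Type*} [Group S] [Group G] [Finite G]
    (hs : IsSection S G) {p : ℕ} [hp : Fact p.Prime] {x : S} (hx1 : x ≠ 1)
    (hx : ∀ P : Sylow p S, x ∈ P → x ∈ ⁅(P : Subgroup S), (P : Subgroup S)⁆)
    (hxp : IsPGroup p (zpowers x)) (P : Sylow p G) : ∃ a ∈ P, ∃ b ∈ P, a * b ≠ b * a := by
  by_contra hcon
  push Not at hcon
  have : Finite S := hs.finite
  obtain ⟨K, f, hf⟩ := hs
  obtain ⟨Q, hQ⟩ := hxp.exists_le_sylow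
  obtain ⟨R, hR⟩ := Sylow.mapSurjective_surjective hf p Q
  have hxQ : x ∈ Q := hQ (mem_zpowers x)
  have h1 := hx Q hxQ
  have hR' : (R : Subgroup K).map f = Q := by rw [← hR]; rfl
  -- `R` lies in a conjugate of `P`
  have hRp : IsPGroup p ((R : Subgroup K).map K.subtype) := R.isPGroup'.map _
  obtain ⟨P', hP'⟩ := hRp.exists_le_sylow
  obtain ⟨g, hg⟩ := MulAction.exists_smul_eq G P P'
  have hcomm' : ∀ a ∈ P', ∀ b ∈ P', a * b = b * a := by
    intro a ha b hb
    rw [← hg] at ha hb
    have ha' : a ∈ ((g • P : Sylow p G) : Set G) := ha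
    have hb' : b ∈ ((g • P : Sylow p G) : Set G) := hb
    rw [Sylow.coe_smul] at ha' hb'
    obtain ⟨a₀, ha₀, rfl⟩ := Set.mem_smul_set.mp ha'
    obtain ⟨b₀, hb₀, rfl⟩ := Set.mem_smul_set.mp hb'
    rw [← smul_mul', ← smul_mul', hcon a₀ ha₀ b₀ hb₀]
  have h2 : ⁅(Q : Subgroup S), (Q : Subgroup S)⁆ = ⊥ := by
    rw [← hR', ← Subgroup.map_commutator, Subgroup.commutator_eq_bot_iff_le_centralizer.mpr,
      Subgroup.map_bot]
    intro a ha
    rw [Subgroup.mem_centralizer_iff]
    intro b hb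
    apply Subtype.ext
    exact hcomm' _ (hP' ⟨b, hb, rfl⟩) _ (hP' ⟨a, ha, rfl⟩)
  rw [h2, mem_bot] at h1
  exact hx1 h1

end Fit28
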