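import Pool.Agent.Lib.Fit_h28.Class
import Pool.Agent.Lib.Fit_h28.Transf

set_option autoImplicit false

/-! `injectors_of_noIsoPair` : injectors exist in every finite group, for every non-empty Fitting
class of finite soluble groups, as soon as no finite nonabelian simple group has a pair of isolated
elements of different prime orders all of whose conjugates generate the group (`NoIsoPair`). -/

namespace Fit28

open Subgroup

/-- No finite simple nonabelian group has elements `x`, `y` of different prime orders `p`, `q` such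
that `x` commutes with no conjugate of `x` but itself, the same for `y`, and every conjugate of `x`
generates the group together with every conjugate of `y`. -/
def NoIsoPair : Prop :=
  ∀ (S : Type) [Group S] [Finite S], IsSimpleGroup S → (∃ a b : S, a * b ≠ b * a) →
    ∀ p q : ℕ, p.Prime → q.Prime → p ≠ q → ∀ x y : S, orderOf x = p → orderOf y = q →
      (∀ g : S, Commute x (g * x * g⁻¹) → g * x * g⁻¹ = x) →
      (∀ g : S, Commute y (g * y * g⁻¹) → g * y * g⁻¹ = y) →
      (∀ g h : S, Subgroup.closure {g * x * g⁻¹, h * y * h⁻¹} = ⊤) → False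

theorem injectors_of_noIsoPair (hno : NoIsoPair) :
    ∀ X : ∀ (G : Type) [Group G], Prop,
      (∀ (G H : Type) [Group G] [Group H] [Finite G], (G ≃* H) → X G → X H) →
      (∀ (G : Type) [Group G] [Finite G], X G → ∀ N : Subgroup G, N.Normal → X ↥N) →
      (∀ (G : Type) [Group G] [Finite G] (N M : Subgroup G),
          N.Normal → M.Normal → X ↥N → X ↥M → X ↥(N ⊔ M)) →
      (∀ (G : Type) [Group G] [Finite G], X G → Group.IsSolvable G) →
      (∃ (G : Type) (_ : Group G), Finite G ∧ X G) →
      ∀ (G : Type) [Group G] [Finite G],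
        ∃ V : Subgroup G, ∀ N : Subgroup G,
          (∃ (n : ℕ) (f : ℕ → Subgroup G), f 0 = N ∧ f n = ⊤ ∧
              ∀ i < n, f i ≤ f (i + 1) ∧ ((f i).subgroupOf (f (i + 1))).Normal) →
          X ↥(V ⊓ N) ∧ ∀ K : Subgroup G, V ⊓ N ≤ K → K ≤ N → X ↥K → K = V ⊓ N := by
  intro X h1 h2 h3 h4 h5 G _ _
  have hX : SolFit X := ⟨h1, h2, h3, h4, h5⟩
  obtain ⟨V, hV⟩ := exists_inj (hX.fam G) (by
    intro p q hp hq hpq hip hiq hbad
    obtain ⟨S, iS, hsec, hsimple, hne, x, y, hx, hy, hix, hiy, hgen⟩ := hbad
    have hfin : Finite S := hsec.finite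
    exact hno S hsimple hne p q hp hq hpq x y hx hy hix hiy hgen)
  exact ⟨V, hV⟩

end Fit28
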