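import Pool.Agent.Lib.Fit_h28.Fam

set_option autoImplicit false

namespace Fit28

open Subgroup

universe u

section quotient

variable {G : Type u} [Group G]

/-- preimage in `G` of a subgroup of `T / E` -/
def pre (T E : Subgroup G) [(E.subgroupOf T).Normal] (F : Subgroup (T ⧸ E.subgroupOf T)) :
    Subgroup G :=
  (F.comap (QuotientGroup.mk' (E.subgroupOf T))).map T.subtype

variable {T E : Subgroup G} [hN : (E.subgroupOf T).Normal]

lemma mem_pre {F : Subgroup (T ⧸ E.subgroupOf T)} {g : G} :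
    g ∈ pre T E F ↔ ∃ h : g ∈ T, ((⟨g, h⟩ : T) : T ⧸ E.subgroupOf T) ∈ F := by
  unfold pre
  rw [Subgroup.mem_map]
  constructor
  · rintro ⟨⟨t, ht⟩, h1, rfl⟩
    exact ⟨ht, h1⟩
  · rintro ⟨h, h1⟩
    exact ⟨⟨g, h⟩, h1, rfl⟩

lemma pre_le (F : Subgroup (T ⧸ E.subgroupOf T)) : pre T E F ≤ T := fun _ hg =>
  (mem_pre.mp hg).1

lemma le_pre (hE : E ≤ T) (F : Subgroup (T ⧸ E.subgroupOf T)) : E ≤ pre T E F := fun g hg => by
  refine mem_pre.mpr ⟨hE hg, ?_⟩
  have : ((⟨g, hE hg⟩ : T) : T ⧸ E.subgroupOf T) = 1 := (QuotientGroup.eq_one_iff _).mpr hg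
  rw [this]
  exact one_mem F

lemma pre_bot (hE : E ≤ T) : pre T E ⊥ = E := by
  ext g
  rw [mem_pre]
  constructor
  · rintro ⟨h, h1⟩
    rw [Subgroup.mem_bot] at h1
    exact (QuotientGroup.eq_one_iff (N := E.subgroupOf T) _).mp h1
  · intro hg
    exact ⟨hE hg, by
      rw [Subgroup.mem_bot]
      exact (QuotientGroup.eq_one_iff _).mpr hg⟩

lemma pre_mono {F F' : Subgroup (T ⧸ E.subgroupOf T)} (h : F ≤ F') : pre T E F ≤ pre T E F' :=
  Subgroup.map_mono (Subgroup.comap_mono h)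

lemma le_of_pre_le {F F' : Subgroup (T ⧸ E.subgroupOf T)} (h : pre T E F ≤ pre T E F') :
    F ≤ F' := by
  intro z hz
  obtain ⟨⟨t, ht⟩, rfl⟩ := QuotientGroup.mk_surjective z
  exact (mem_pre.mp (h (mem_pre.mpr ⟨ht, hz⟩))).2

lemma eq_bot_of_pre (hE : E ≤ T) {F : Subgroup (T ⧸ E.subgroupOf T)} (h : pre T E F = E) :
    F = ⊥ := by
  rw [eq_bot_iff]
  apply le_of_pre_le
  rw [h]
  exact le_pre hE _

lemma pre_sup (F F' : Subgroup (T ⧸ E.subgroupOf T)) :
    pre T E (F ⊔ F') = pre T E F ⊔ pre T E F' := by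
  unfold pre
  rw [← Subgroup.map_sup, ← Subgroup.comap_sup_eq _ _ _ (QuotientGroup.mk'_surjective _)]

lemma fam_quot [Finite G] {X : Subgroup G → Prop} (hX : Fam X) (hE : E ≤ T) (hXE : X E) :
    Fam (fun F : Subgroup (T ⧸ E.subgroupOf T) => X (pre T E F)) where
  bot := by rw [pre_bot hE]; exact hXE
  conj := by
    intro g F hF
    obtain ⟨⟨t, ht⟩, rfl⟩ := QuotientGroup.mk_surjective g
    have e : pre T E (cj ((⟨t, ht⟩ : T) : T ⧸ E.subgroupOf T) F) = cj t (pre T E F) := by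
      ext z
      rw [mem_pre, mem_cj, mem_pre]
      constructor
      · rintro ⟨h, h1⟩
        rw [mem_cj] at h1
        exact ⟨mul_mem (mul_mem (inv_mem ht) h) ht, h1⟩
      · rintro ⟨h, h1⟩
        have hz : z ∈ T := by
          have := mul_mem (mul_mem ht h) (inv_mem ht)
          have e : t * (t⁻¹ * z * t) * t⁻¹ = z := by group
          rwa [e] at this
        refine ⟨hz, ?_⟩
        rw [mem_cj]
        exact h1
    rw [e]
    exact hX.conj _ _ hF
  sub := by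
    intro F F' h1 h2 h3
    refine hX.sub _ _ (pre_mono h1) ?_ h3
    intro a ha b hb
    obtain ⟨ha1, ha2⟩ := mem_pre.mp ha
    obtain ⟨hb1, hb2⟩ := mem_pre.mp hb
    exact mem_pre.mpr ⟨mul_mem (mul_mem ha1 hb1) (inv_mem ha1), h2 _ ha2 _ hb2⟩
  sup := by
    intro F F' h1 h2 h3 h4
    rw [pre_sup]
    refine hX.sup _ _ ?_ ?_ h3 h4
    · intro a ha b hb
      obtain ⟨ha1, ha2⟩ := mem_pre.mp ha
      obtain ⟨hb1, hb2⟩ := mem_pre.mp hb
      exact mem_pre.mpr ⟨mul_mem (mul_mem ha1 hb1) (inv_mem ha1), h1 _ ha2 _ hb2⟩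
    · intro a ha b hb
      obtain ⟨ha1, ha2⟩ := mem_pre.mp ha
      obtain ⟨hb1, hb2⟩ := mem_pre.mp hb
      exact mem_pre.mpr ⟨mul_mem (mul_mem ha1 hb1) (inv_mem ha1), h2 _ ha2 _ hb2⟩
  solv := by
    intro F hF
    have h1 : Group.IsSolvable (pre T E F) := hX.solv _ hF
    let f : pre T E F →* T ⧸ E.subgroupOf T :=
      (QuotientGroup.mk' (E.subgroupOf T)).comp (Subgroup.inclusion (pre_le F))
    have h2 : ∀ z, f z ∈ F := fun z => (mem_pre.mp z.2).2
    let f' : pre T E F →* F := f.codRestrict F h2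
    have h3 : Function.Surjective f' := by
      rintro ⟨z, hz⟩
      obtain ⟨⟨t, ht⟩, rfl⟩ := QuotientGroup.mk_surjective z
      exact ⟨⟨t, mem_pre.mpr ⟨ht, hz⟩⟩, rfl⟩
    exact Group.isSolvable_of_surjective h3

end quotient

section index

/-- a soluble group has a normal subgroup of prime index above every proper normal subgroup -/
lemma exists_normal_prime_index {Q : Type*} [Group Q] [Finite Q] (hQ : Group.IsSolvable Q)
    (E : Subgroup Q) [E.Normal] (hE : E ≠ ⊤) :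
    ∃ N : Subgroup Q, N.Normal ∧ E ≤ N ∧ N.index.Prime := by
  obtain ⟨N, hN⟩ := Set.Finite.exists_maximal
    (s := {N : Subgroup Q | N.Normal ∧ E ≤ N ∧ N ≠ ⊤}) (Set.toFinite _)
    ⟨E, inferInstance, le_rfl, hE⟩
  obtain ⟨⟨hNn, hEN, hNt⟩, hmax⟩ := hN
  refine ⟨N, hNn, hEN, ?_⟩
  have hnt : Nontrivial (Q ⧸ N) := by
    rw [← not_subsingleton_iff_nontrivial]
    intro h
    exact hNt (QuotientGroup.subsingleton_iff.mp h)
  have hs : IsSimpleGroup (Q ⧸ N) := by
    refine @IsSimpleGroup.mk _ _ hnt ?_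
    intro K hK
    by_cases hKt : K.comap (QuotientGroup.mk' N) = ⊤
    · right
      rw [eq_top_iff]
      intro z _
      obtain ⟨w, rfl⟩ := QuotientGroup.mk'_surjective N z
      have : w ∈ K.comap (QuotientGroup.mk' N) := by rw [hKt]; exact mem_top w
      exact this
    · left
      have h1 : N ≤ K.comap (QuotientGroup.mk' N) := by
        intro z hz
        rw [Subgroup.mem_comap, QuotientGroup.mk'_apply, (QuotientGroup.eq_one_iff z).mpr hz]
        exact one_mem K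
      have h2 := hmax (y := K.comap (QuotientGroup.mk' N))
        ⟨hK.comap _, hEN.trans h1, hKt⟩ h1
      rw [eq_bot_iff]
      intro z hz
      obtain ⟨w, rfl⟩ := QuotientGroup.mk'_surjective N z
      have : w ∈ N := h2 hz
      rw [Subgroup.mem_bot, QuotientGroup.mk'_apply]
      exact (QuotientGroup.eq_one_iff w).mpr this
  have hsol : Group.IsSolvable (Q ⧸ N) := Group.isSolvable_of_surjective (QuotientGroup.mk'_surjective N)
  have hcomm : ∀ a b : Q ⧸ N, a * b = b * a := IsSimpleGroup.comm_iff_isSolvable.mpr hsol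
  let _ : CommGroup (Q ⧸ N) := { (inferInstance : Group (Q ⧸ N)) with mul_comm := hcomm }
  have : IsSimpleGroup (Q ⧸ N) := hs
  exact IsSimpleGroup.prime_card (α := Q ⧸ N)

variable {G : Type u} [Group G] [Finite G]

lemma exists_step {X : Subgroup G → Prop} (hX : Fam X) {A E : Subgroup G} (hA : X A) (hE : E ≤ A)
    (hn : Nz A E) (hne : E ≠ A) :
    ∃ A₁, E ≤ A₁ ∧ A₁ ≤ A ∧ Nz A A₁ ∧ (A₁.relIndex A).Prime ∧ X A₁ := by
  have h1 : (E.subgroupOf A).Normal := by
    rw [Subgroup.normal_subgroupOf_iff_le_normalizer hE, ← nz_iff]; exact hn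
  have h2 : E.subgroupOf A ≠ ⊤ := by
    intro h
    rw [Subgroup.subgroupOf_eq_top] at h
    exact hne (le_antisymm hE h)
  obtain ⟨N, hN, hEN, hp⟩ := exists_normal_prime_index (hX.solv A hA) (E.subgroupOf A) h2
  refine ⟨N.map A.subtype, ?_, Subgroup.map_subtype_le N, ?_, ?_, ?_⟩
  · intro e he
    exact ⟨⟨e, hE he⟩, hEN he, rfl⟩
  · rintro a ha _ ⟨b, hb, rfl⟩
    exact ⟨⟨a, ha⟩ * b * ⟨a, ha⟩⁻¹, hN.conj_mem b hb ⟨a, ha⟩, rfl⟩
  · have : (N.map A.subtype).relIndex A = N.index := by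
      unfold Subgroup.relIndex
      rw [Subgroup.subgroupOf, Subgroup.comap_map_eq_self_of_injective A.subtype_injective]
    rw [this]; exact hp
  · refine hX.sub _ _ (Subgroup.map_subtype_le N) ?_ hA
    rintro a ha _ ⟨b, hb, rfl⟩
    exact ⟨⟨a, ha⟩ * b * ⟨a, ha⟩⁻¹, hN.conj_mem b hb ⟨a, ha⟩, rfl⟩

end index

end Fit28
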