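import Pool.Agent.Lib.Fit_h28.GL

set_option autoImplicit false

namespace Fit28

open Subgroup

universe u

variable {G : Type u} [Group G] [Finite G]

omit [Finite G] in
lemma eq_of_prime_relIndex {E C A : Subgroup G} (h1 : E ≤ C) (h2 : C ≤ A)
    (hp : (E.relIndex A).Prime) (hC : ¬ C ≤ E) : C = A := by
  have h := Subgroup.relIndex_mul_relIndex E C A h1 h2
  rw [← h] at hp
  rcases Nat.prime_mul_iff.mp hp with ⟨_, h3⟩ | ⟨_, h3⟩
  · exact le_antisymm h2 (Subgroup.relIndex_eq_one.mp h3)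
  · exact absurd (Subgroup.relIndex_eq_one.mp h3) hC

section

variable {T E A : Subgroup G} [hN : (E.subgroupOf T).Normal]

omit [Finite G] in
lemma pre_zpowers_le {x : G} (hxT : x ∈ T) (hxA : x ∈ A) (hEA : E ≤ A) :
    pre T E (zpowers ((⟨x, hxT⟩ : T) : T ⧸ E.subgroupOf T)) ≤ A := by
  intro g hg
  obtain ⟨hgT, h1⟩ := mem_pre.mp hg
  obtain ⟨k, hk⟩ := mem_zpowers_iff.mp h1
  have h2 : ((⟨x, hxT⟩ : T) ^ k)⁻¹ * ⟨g, hgT⟩ ∈ E.subgroupOf T := by
    rw [← QuotientGroup.eq]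
    exact hk
  rw [Subgroup.mem_subgroupOf] at h2
  have h3 : (x ^ k)⁻¹ * g ∈ E := by simpa using h2
  have h4 : x ^ k * ((x ^ k)⁻¹ * g) ∈ A := mul_mem (zpow_mem hxA k) (hEA h3)
  simpa using h4

omit [Finite G] in
lemma pre_zpowers_eq {x : G} (hxT : x ∈ T) (hxA : x ∈ A) (hET : E ≤ T) (hEA : E ≤ A)
    (hp : (E.relIndex A).Prime) (hxE : x ∉ E) :
    pre T E (zpowers ((⟨x, hxT⟩ : T) : T ⧸ E.subgroupOf T)) = A := by
  refine eq_of_prime_relIndex (le_pre hET _) (pre_zpowers_le hxT hxA hEA) hp ?_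
  intro h
  exact hxE (h (mem_pre.mpr ⟨hxT, mem_zpowers _⟩))

omit [Finite G] in
lemma orderOf_quot {x : G} (hxT : x ∈ T) (hxA : x ∈ A) (nAE : Nz A E) (hEA : E ≤ A)
    (hp : (E.relIndex A).Prime) (hxE : x ∉ E) :
    orderOf ((⟨x, hxT⟩ : T) : T ⧸ E.subgroupOf T) = E.relIndex A := by
  have : Fact (E.relIndex A).Prime := ⟨hp⟩
  apply orderOf_eq_prime
  · have h1 : (E.subgroupOf A).Normal := by
      rw [Subgroup.normal_subgroupOf_iff_le_normalizer hEA, ← nz_iff]; exact nAE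
    have h2 := Subgroup.pow_index_mem (H := E.subgroupOf A) ⟨x, hxA⟩
    rw [Subgroup.mem_subgroupOf] at h2
    have h3 : ((⟨x, hxT⟩ : T) ^ (E.relIndex A)) ∈ E.subgroupOf T := by
      rw [Subgroup.mem_subgroupOf]
      exact h2
    rw [← QuotientGroup.mk_pow]
    exact (QuotientGroup.eq_one_iff _).mpr h3
  · intro h
    exact hxE ((QuotientGroup.eq_one_iff (N := E.subgroupOf T) _).mp h)

end

theorem gl_base {X : Subgroup G → Prop} (hX : Fam X) {A B D E : Subgroup G}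
    (hEA : E ≤ A) (hEB : E ≤ B) (hED : E ≤ D) (nAE : Nz A E) (nBE : Nz B E) (nDE : Nz D E)
    (nAD : Nz A D) (nBD : Nz B D) (hc : Cm A B D) (hXA : X A) (hXB : X B)
    (hgood : ∀ F, X F → E ≤ F → F ≤ D → F = E)
    (hp : (E.relIndex A).Prime) (hq : (E.relIndex B).Prime)
    (hbad : E.relIndex A ≠ E.relIndex B → ¬ BadSec G (E.relIndex A) (E.relIndex B)) :
    ∃ d ∈ D, Cm A (cj d B) E := by
  set T := A ⊔ B ⊔ D with hT
  have hAT : A ≤ T := le_sup_left.trans le_sup_left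
  have hBT : B ≤ T := le_sup_right.trans le_sup_left
  have hDT : D ≤ T := le_sup_right
  have hET : E ≤ T := hEA.trans hAT
  have nTE : Nz T E := (nAE.sup_left nBE).sup_left nDE
  have nTD : Nz T D := (nAD.sup_left nBD).sup_left (nz_self D)
  have hN : (E.subgroupOf T).Normal := by
    rw [Subgroup.normal_subgroupOf_iff_le_normalizer hET, ← nz_iff]; exact nTE
  have hND : (D.subgroupOf T).Normal := by
    rw [Subgroup.normal_subgroupOf_iff_le_normalizer hDT, ← nz_iff]; exact nTD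
  obtain ⟨x, hxA, hxE⟩ : ∃ x ∈ A, x ∉ E := by
    by_contra h
    push Not at h
    exact hp.one_lt.ne' (Subgroup.relIndex_eq_one.mpr h)
  obtain ⟨y, hyB, hyE⟩ : ∃ y ∈ B, y ∉ E := by
    by_contra h
    push Not at h
    exact hq.one_lt.ne' (Subgroup.relIndex_eq_one.mpr h)
  have hxT := hAT hxA
  have hyT := hBT hyB
  set x' : T ⧸ E.subgroupOf T := ((⟨x, hxT⟩ : T) : T ⧸ E.subgroupOf T) with hx'
  set y' : T ⧸ E.subgroupOf T := ((⟨y, hyT⟩ : T) : T ⧸ E.subgroupOf T) with hy'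
  have hpx : pre T E (zpowers x') = A := pre_zpowers_eq hxT hxA hET hEA hp hxE
  have hpy : pre T E (zpowers y') = B := pre_zpowers_eq hyT hyB hET hEB hq hyE
  set D' : Subgroup (T ⧸ E.subgroupOf T) :=
    (D.subgroupOf T).map (QuotientGroup.mk' (E.subgroupOf T)) with hD'
  have hD'n : D'.Normal := hND.map _ (QuotientGroup.mk'_surjective _)
  have hpD : pre T E D' ≤ D := by
    intro z hz
    obtain ⟨hzT, h1⟩ := mem_pre.mp hz
    rw [hD', Subgroup.mem_map] at h1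
    obtain ⟨w, hw, hwz⟩ := h1
    have h2 : w⁻¹ * ⟨z, hzT⟩ ∈ E.subgroupOf T := by
      rw [← QuotientGroup.eq]; exact hwz
    rw [Subgroup.mem_subgroupOf] at h2 hw
    have h3 := mul_mem hw (hED h2)
    simpa using h3
  have hDp : D ≤ pre T E D' := fun z hz =>
    mem_pre.mpr ⟨hDT hz, ⟨⟨z, hDT hz⟩, hz, rfl⟩⟩
  obtain ⟨d', hd', hcom⟩ := base_case (H := T ⧸ E.subgroupOf T)
    (fam_quot hX hET (hX.sub _ _ hEA nAE hXA)) D' hp hq (x := x') (y := y')
    (orderOf_quot hxT hxA nAE hEA hp hxE) (orderOf_quot hyT hyB nBE hEB hq hyE)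
    (by rw [hpx]; exact hXA)
    (by rw [hpy]; exact hXB)
    (by
      refine ⟨⟨x * y * x⁻¹ * y⁻¹, ?_⟩, ?_, rfl⟩
      · exact mul_mem (mul_mem (mul_mem hxT hyT) (inv_mem hxT)) (inv_mem hyT)
      · exact hc x hxA y hyB)
    (by
      rw [eq_top_iff]
      apply le_of_pre_le
      rw [pre_sup, pre_sup, hpx, hpy]
      refine (pre_le _).trans ?_
      exact (sup_le (sup_le (le_sup_right.trans le_sup_left) le_sup_right)
        (hDp.trans (le_sup_left.trans le_sup_left)) : A ⊔ B ⊔ D ≤ _))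
    (by
      intro F hF hFD
      exact eq_bot_of_pre hET (hgood _ hF (le_pre hET F) ((pre_mono hFD).trans hpD)))
    (by
      intro hne h
      exact hbad hne (h.of_section ((IsSection.quotient _).trans (IsSection.subgroup T))))
  obtain ⟨⟨d, hdT⟩, hdD, rfl⟩ := hd'
  refine ⟨d, hdD, ?_⟩
  intro a ha b hb
  rw [mem_cj] at hb
  have haT := hAT ha
  have hbT : b ∈ T := by
    have := mul_mem (mul_mem hdT (hBT hb)) (inv_mem hdT)
    have e : d * (d⁻¹ * b * d) * d⁻¹ = b := by group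
    rwa [e] at this
  have h1 : ((⟨a, haT⟩ : T) : T ⧸ E.subgroupOf T) ∈ zpowers x' := by
    rw [← hpx] at ha
    exact (mem_pre.mp ha).2
  have h2 : ((⟨d, hdT⟩ : T) : T ⧸ E.subgroupOf T)⁻¹ * ((⟨b, hbT⟩ : T) : T ⧸ E.subgroupOf T) *
      ((⟨d, hdT⟩ : T) : T ⧸ E.subgroupOf T) ∈ zpowers y' := by
    rw [← hpy] at hb
    exact (mem_pre.mp hb).2
  obtain ⟨k, hk⟩ := mem_zpowers_iff.mp h1
  obtain ⟨l, hl⟩ := mem_zpowers_iff.mp h2
  have h3 : ((⟨b, hbT⟩ : T) : T ⧸ E.subgroupOf T) =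
      (((⟨d, hdT⟩ : T) : T ⧸ E.subgroupOf T) * y' * ((⟨d, hdT⟩ : T) : T ⧸ E.subgroupOf T)⁻¹) ^ l := by
    rw [conj_zpow, hl]; group
  have h4 : Commute ((⟨a, haT⟩ : T) : T ⧸ E.subgroupOf T) ((⟨b, hbT⟩ : T) : T ⧸ E.subgroupOf T) := by
    rw [← hk, h3]
    exact hcom.zpow_zpow k l
  have h5 : ((⟨a * b * a⁻¹ * b⁻¹, mul_mem (mul_mem (mul_mem haT hbT) (inv_mem haT))
      (inv_mem hbT)⟩ : T) : T ⧸ E.subgroupOf T) = 1 := by
    change ((⟨a, haT⟩ : T) : T ⧸ E.subgroupOf T) * ((⟨b, hbT⟩ : T) : T ⧸ E.subgroupOf T) *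
      ((⟨a, haT⟩ : T) : T ⧸ E.subgroupOf T)⁻¹ * ((⟨b, hbT⟩ : T) : T ⧸ E.subgroupOf T)⁻¹ = 1
    rw [h4.eq]; group
  exact (QuotientGroup.eq_one_iff (N := E.subgroupOf T) _).mp h5

end Fit28
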