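import Pool.Agent.Lib.Fit_h28.GLBase

set_option autoImplicit false

namespace Fit28

open Subgroup

universe u

variable {G : Type u} [Group G]

lemma Cm.cj_right {A B D : Subgroup G} (h : Cm A B D) (nAD : Nz A D) (nBD : Nz B D) {d : G}
    (hd : d ∈ D) : Cm A (Fit28.cj d B) D := by
  intro a ha b hb
  rw [mem_cj] at hb
  set b' := d⁻¹ * b * d with hb'
  have e : b = d * b' * d⁻¹ := by rw [hb']; group
  rw [e]
  have e2 : a * (d * b' * d⁻¹) * a⁻¹ * (d * b' * d⁻¹)⁻¹ =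
      (a * d * a⁻¹) * (a * b' * a⁻¹ * b'⁻¹) * (b' * (a * d⁻¹ * a⁻¹) * b'⁻¹) * (b' * d * b'⁻¹) *
        d⁻¹ := by group
  rw [e2]
  exact mul_mem (mul_mem (mul_mem (mul_mem (nAD a ha d hd) (h a ha b' hb))
    (nBD b' hb _ (nAD a ha _ (inv_mem hd)))) (nBD b' hb d hd)) (inv_mem hd)

lemma cj_inv_cj (d : G) (H : Subgroup G) : cj d⁻¹ (cj d H) = H := by
  rw [← cj_mul, inv_mul_cancel, cj_one]

lemma relIndex_cj (d : G) (H K : Subgroup G) : (cj d H).relIndex (cj d K) = H.relIndex K :=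
  Subgroup.relIndex_map_map_of_injective H K (MulAut.conj d).injective

/-- the hypotheses of the gluing lemma -/
structure Conf (X : Subgroup G → Prop) (A B D E : Subgroup G) : Prop where
  hEA : E ≤ A
  hEB : E ≤ B
  hED : E ≤ D
  nAE : Nz A E
  nBE : Nz B E
  nDE : Nz D E
  nAD : Nz A D
  nBD : Nz B D
  hc : Cm A B D
  hXA : X A
  hXB : X B
  hgood : ∀ F, X F → E ≤ F → F ≤ D → F = E

lemma Conf.symm {X : Subgroup G → Prop} {A B D E : Subgroup G} (h : Conf X A B D E) :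
    Conf X B A D E where
  hEA := h.hEB
  hEB := h.hEA
  hED := h.hED
  nAE := h.nBE
  nBE := h.nAE
  nDE := h.nDE
  nAD := h.nBD
  nBD := h.nAD
  hc := h.hc.symm
  hXA := h.hXB
  hXB := h.hXA
  hgood := h.hgood

lemma Conf.cj {X : Subgroup G → Prop} (hX : Fam X) {A B D E : Subgroup G} (h : Conf X A B D E)
    {d : G} (hd : d ∈ D) : Conf X A (Fit28.cj d B) D E where
  hEA := h.hEA
  hEB := by
    have := cj_mono (g := d) h.hEB
    rwa [h.nDE.cj_eq hd] at this
  hED := h.hED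
  nAE := h.nAE
  nBE := by
    have := nz_cj (g := d) h.nBE
    rwa [h.nDE.cj_eq hd] at this
  nDE := h.nDE
  nAD := h.nAD
  nBD := by
    have := nz_cj (g := d) h.nBD
    rwa [(nz_self D).cj_eq hd] at this
  hc := h.hc.cj_right h.nAD h.nBD hd
  hXA := h.hXA
  hXB := hX.conj _ _ h.hXB
  hgood := h.hgood

/-- the conclusion of the gluing lemma -/
def Concl (A B D E : Subgroup G) : Prop := ∃ d ∈ D, Cm A (cj d B) E

lemma Concl.symm {X : Subgroup G → Prop} {A B D E : Subgroup G} (hc : Conf X A B D E)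
    (h : Concl A B D E) : Concl B A D E := by
  obtain ⟨d, hd, h⟩ := h
  refine ⟨d⁻¹, inv_mem hd, ?_⟩
  have h1 := h.cj d⁻¹
  rw [cj_inv_cj, hc.nDE.cj_eq (inv_mem hd)] at h1
  exact h1.symm

lemma nz_normalizer (A : Subgroup G) : Nz (normalizer (A : Set G)) A := nz_iff.mpr le_rfl

variable [Finite G]

lemma relIndex_ne_zero' (H K : Subgroup G) : H.relIndex K ≠ 0 := by
  unfold Subgroup.relIndex
  exact Subgroup.index_ne_zero_of_finite

lemma gl_step {X : Subgroup G → Prop} (hX : Fam X) (n : ℕ)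
    (ih : ∀ m < n, ∀ A B D E : Subgroup G, E.relIndex A * E.relIndex B = m → Conf X A B D E →
      Concl A B D E)
    {A B D E : Subgroup G} (hn : E.relIndex A * E.relIndex B = n) (h : Conf X A B D E)
    (h1 : E.relIndex A ≠ 1) (hnp : ¬ (E.relIndex A).Prime) : Concl A B D E := by
  have hbpos : 0 < E.relIndex B := Nat.pos_of_ne_zero (relIndex_ne_zero' _ _)
  have hneA : E ≠ A := by
    rintro rfl
    exact h1 (Subgroup.relIndex_self E)
  obtain ⟨A₁, hEA₁, hA₁A, nAA₁, hpr, hXA₁⟩ := exists_step hX h.hXA h.hEA h.nAE hneA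
  have hmul := Subgroup.relIndex_mul_relIndex E A₁ A hEA₁ hA₁A
  have hne1 : E.relIndex A₁ ≠ 1 := by
    intro h2
    rw [h2, one_mul] at hmul
    rw [hmul] at hpr
    exact hnp hpr
  have hpos1 : 0 < E.relIndex A₁ := Nat.pos_of_ne_zero (relIndex_ne_zero' _ _)
  have hgt1 : 1 < E.relIndex A₁ := by omega
  have hlt1 : E.relIndex A₁ < E.relIndex A := by
    rw [← hmul]
    exact lt_mul_of_one_lt_right hpos1 hpr.one_lt
  have hlt2 : A₁.relIndex A < E.relIndex A := by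
    rw [← hmul]
    exact lt_mul_of_one_lt_left hpr.pos hgt1
  -- first application
  have hconf1 : Conf X A₁ B D E :=
    { hEA := hEA₁, hEB := h.hEB, hED := h.hED, nAE := h.nAE.mono hA₁A, nBE := h.nBE,
      nDE := h.nDE, nAD := h.nAD.mono hA₁A, nBD := h.nBD,
      hc := h.hc.mono hA₁A le_rfl le_rfl, hXA := hXA₁, hXB := h.hXB, hgood := h.hgood }
  obtain ⟨d₁, hd₁, hcm1⟩ := ih _ (by rw [← hn]; exact (Nat.mul_lt_mul_right hbpos).mpr hlt1)
    A₁ B D E rfl hconf1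
  set B' := cj d₁ B with hB'
  have h' : Conf X A B' D E := h.cj hX hd₁
  have hrB : E.relIndex B' = E.relIndex B := by
    conv_lhs => rw [← h.nDE.cj_eq hd₁]
    exact relIndex_cj d₁ E B
  have nBA₁ : Nz B' A₁ := hcm1.nz_left hEA₁
  have nA₁B : Nz A₁ B' := hcm1.nz_right h'.hEB
  set N := normalizer (A₁ : Set G) with hN
  have hAN : A ≤ N := nz_iff.mp nAA₁
  have hBN : B' ≤ N := nz_iff.mp nBA₁
  set D₁ := (D ⊓ N) ⊔ A₁ with hD₁
  have nDN : Nz (D ⊓ N) A₁ := (nz_normalizer A₁).mono inf_le_right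
  have nAD₁ : Nz A D₁ := (h.nAD.inf (nz_of_le hAN)).sup_right nAA₁
  have nBD₁ : Nz B' D₁ := (h'.nBD.inf (nz_of_le hBN)).sup_right nBA₁
  have hconf2 : Conf X A (B' ⊔ A₁) D₁ A₁ :=
    { hEA := hA₁A
      hEB := le_sup_right
      hED := le_sup_right
      nAE := nAA₁
      nBE := nBA₁.sup_left (nz_self A₁)
      nDE := nDN.sup_left (nz_self A₁)
      nAD := nAD₁
      nBD := nBD₁.sup_left (nAD₁.mono hA₁A)
      hc := by
        refine Cm.sup_right ?_ ?_ nBD₁ nBA₁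
        · intro a ha b hb
          refine le_sup_left (b := A₁) ⟨h'.hc a ha b hb, ?_⟩
          exact N.mul_mem (N.mul_mem (N.mul_mem (hAN ha) (hBN hb)) (N.inv_mem (hAN ha)))
            (N.inv_mem (hBN hb))
        · intro a ha b hb
          exact le_sup_right (a := D ⊓ N) (mul_mem (nAA₁ a ha b hb) (inv_mem hb))
      hXA := h.hXA
      hXB := hX.sup _ _ nBA₁ nA₁B h'.hXB hXA₁
      hgood := by
        intro F hF hAF hFD
        have nD₁D : Nz D₁ D := (nz_of_le inf_le_left).sup_left (h.nAD.mono hA₁A)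
        have h3 : F ⊓ D = E := h.hgood _
          (hX.sub _ _ inf_le_left ((nz_self F).inf (nD₁D.mono hFD)) hF)
          (le_inf (hEA₁.trans hAF) h.hED) inf_le_right
        refine le_antisymm ?_ hAF
        intro f hf
        obtain ⟨d, hd, a, ha, rfl⟩ := (mem_sup_of_nz nDN).mp (hFD hf)
        have h4 : d ∈ F ⊓ D := by
          refine ⟨?_, hd.1⟩
          have := mul_mem hf (inv_mem (hAF ha))
          simpa using this
        rw [h3] at h4
        exact mul_mem (hEA₁ h4) ha }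
  have hle : A₁.relIndex (B' ⊔ A₁) ≤ E.relIndex B := by
    rw [relIndex_sup_of_nz nBA₁, ← hrB]
    exact Subgroup.relIndex_le_of_le_left hEA₁ (relIndex_ne_zero' _ _)
  obtain ⟨d₂, hd₂, hcm2⟩ := ih _ (by
      rw [← hn]
      calc A₁.relIndex A * A₁.relIndex (B' ⊔ A₁) ≤ A₁.relIndex A * E.relIndex B :=
            Nat.mul_le_mul_left _ hle
        _ < E.relIndex A * E.relIndex B := (Nat.mul_lt_mul_right hbpos).mpr hlt2)
    A (B' ⊔ A₁) D₁ A₁ rfl hconf2
  obtain ⟨v, hv, a₁, ha₁, rfl⟩ := (mem_sup_of_nz nDN).mp hd₂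
  have e1 : cj (v * a₁) (B' ⊔ A₁) = cj v (B' ⊔ A₁) := by
    rw [cj_mul, (nz_self (B' ⊔ A₁)).cj_eq (le_sup_right (a := B') ha₁)]
  rw [e1] at hcm2
  have h5 : Cm A (cj v B') A₁ := hcm2.mono le_rfl (cj_mono le_sup_left) le_rfl
  have h6 : Cm A (cj v B') D := h'.hc.cj_right h'.nAD h'.nBD hv.1
  have h7 : A ⊓ D = E := h.hgood _
    (hX.sub _ _ inf_le_left ((nz_self A).inf h.nAD) h.hXA) (le_inf h.hEA h.hED) inf_le_right
  refine ⟨v * d₁, mul_mem hv.1 hd₁, ?_⟩
  rw [cj_mul, ← hB']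
  intro a ha b hb
  rw [← h7]
  exact ⟨hA₁A (h5 a ha b hb), h6 a ha b hb⟩

/-- **Gluing lemma.** -/
theorem gl {X : Subgroup G → Prop} (hX : Fam X)
    (hbad : ∀ p q, p.Prime → q.Prime → p ≠ q → HasIdx X p → HasIdx X q → ¬ BadSec G p q)
    (n : ℕ) : ∀ A B D E : Subgroup G, E.relIndex A * E.relIndex B = n → Conf X A B D E →
      Concl A B D E := by
  induction n using Nat.strong_induction_on with
  | _ n ih =>
  intro A B D E hn h
  by_cases ha1 : E.relIndex A = 1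
  · refine ⟨1, one_mem D, ?_⟩
    rw [cj_one]
    intro a ha b hb
    have ha' : a ∈ E := Subgroup.relIndex_eq_one.mp ha1 ha
    have e : a * b * a⁻¹ * b⁻¹ = a * (b * a⁻¹ * b⁻¹) := by group
    rw [e]
    exact mul_mem ha' (h.nBE b hb _ (inv_mem ha'))
  by_cases hb1 : E.relIndex B = 1
  · refine ⟨1, one_mem D, ?_⟩
    rw [cj_one]
    intro a ha b hb
    have hb' : b ∈ E := Subgroup.relIndex_eq_one.mp hb1 hb
    exact mul_mem (h.nAE a ha _ hb') (inv_mem hb')
  by_cases hap : (E.relIndex A).Prime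
  · by_cases hbp : (E.relIndex B).Prime
    · exact gl_base hX h.hEA h.hEB h.hED h.nAE h.nBE h.nDE h.nAD h.nBD h.hc h.hXA h.hXB h.hgood
        hap hbp (fun hne => hbad _ _ hap hbp hne ⟨A, E, h.hXA, h.hEA, h.nAE, rfl⟩
          ⟨B, E, h.hXB, h.hEB, h.nBE, rfl⟩)
    · exact Concl.symm h.symm (gl_step hX n ih (by rw [mul_comm]; exact hn) h.symm hb1 hbp)
  · exact gl_step hX n ih hn h ha1 hap

end Fit28
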