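import Mathlib

set_option autoImplicit false

namespace Fit28

open Subgroup

universe u

/-- `x` commutes with none of its conjugates, except itself. -/
def Isol {H : Type*} [Group H] (x : H) : Prop :=
  ∀ g : H, Commute x (g * x * g⁻¹) → g * x * g⁻¹ = x

/-- `S` is a section of `H`: a homomorphic image of a subgroup of `H`. -/
def IsSection (S H : Type*) [Group S] [Group H] : Prop :=
  ∃ (K : Subgroup H) (f : K →* S), Function.Surjective f

lemma IsSection.refl (H : Type*) [Group H] : IsSection H H :=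
  ⟨⊤, (⊤ : Subgroup H).subtype, fun x => ⟨⟨x, Subgroup.mem_top x⟩, rfl⟩⟩

lemma IsSection.trans {S T H : Type*} [Group S] [Group T] [Group H]
    (h1 : IsSection S T) (h2 : IsSection T H) : IsSection S H := by
  obtain ⟨K', f', hf'⟩ := h1
  obtain ⟨K, f, hf⟩ := h2
  let e := (K'.comap f).equivMapOfInjective K.subtype K.subtype_injective
  refine ⟨(K'.comap f).map K.subtype,
    (f'.comp (f.subgroupComap K')).comp e.symm.toMonoidHom, ?_⟩
  intro s
  obtain ⟨t, rfl⟩ := hf' s
  obtain ⟨k, hk⟩ := hf t.1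
  have hk' : k ∈ K'.comap f := by rw [Subgroup.mem_comap, hk]; exact t.2
  refine ⟨e ⟨k, hk'⟩, ?_⟩
  simp only [MonoidHom.comp_apply]
  have : e.symm.toMonoidHom (e ⟨k, hk'⟩) = ⟨k, hk'⟩ := e.symm_apply_apply _
  rw [this]
  congr 1
  exact Subtype.ext hk

lemma IsSection.subgroup {H : Type*} [Group H] (K : Subgroup H) : IsSection K H :=
  ⟨K, MonoidHom.id K, fun x => ⟨x, rfl⟩⟩

lemma IsSection.quotient {H : Type*} [Group H] (N : Subgroup H) [N.Normal] :
    IsSection (H ⧸ N) H :=
  ⟨⊤, (QuotientGroup.mk' N).comp (⊤ : Subgroup H).subtype, fun x => by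
    obtain ⟨y, rfl⟩ := QuotientGroup.mk'_surjective N x
    exact ⟨⟨y, Subgroup.mem_top y⟩, rfl⟩⟩

lemma IsSection.finite {S H : Type*} [Group S] [Group H] [Finite H] (h : IsSection S H) :
    Finite S := by
  obtain ⟨K, f, hf⟩ := h
  exact Finite.of_surjective f hf

/-- `H` has a nonabelian simple section with isolated elements `x`, `y` of orders `p`, `q` such
that every conjugate of `x` and every conjugate of `y` generate it. -/
def BadSec (H : Type u) [Group H] (p q : ℕ) : Prop :=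
  ∃ (S : Type u) (_ : Group S), IsSection S H ∧ IsSimpleGroup S ∧ (∃ a b : S, a * b ≠ b * a) ∧
    ∃ x y : S, orderOf x = p ∧ orderOf y = q ∧ Isol x ∧ Isol y ∧
      ∀ g h : S, closure {g * x * g⁻¹, h * y * h⁻¹} = ⊤

lemma BadSec.of_section {T H : Type u} [Group T] [Group H] {p q : ℕ} (h : BadSec T p q)
    (hT : IsSection T H) : BadSec H p q := by
  obtain ⟨S, iS, hS, rest⟩ := h
  exact ⟨S, iS, hS.trans hT, rest⟩

section basics

variable {H : Type*} [Group H]

lemma Isol.conj {x : H} (hx : Isol x) (a : H) : Isol (a * x * a⁻¹) := by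
  intro g hg
  have h1 : Commute x ((a⁻¹ * g * a) * x * (a⁻¹ * g * a)⁻¹) := by
    have := hg
    unfold Commute SemiconjBy at this ⊢
    have h2 : a⁻¹ * (a * x * a⁻¹ * (g * (a * x * a⁻¹) * g⁻¹)) * a =
        a⁻¹ * (g * (a * x * a⁻¹) * g⁻¹ * (a * x * a⁻¹)) * a := by rw [this]
    calc x * (a⁻¹ * g * a * x * (a⁻¹ * g * a)⁻¹)
        = a⁻¹ * (a * x * a⁻¹ * (g * (a * x * a⁻¹) * g⁻¹)) * a := by group
      _ = a⁻¹ * (g * (a * x * a⁻¹) * g⁻¹ * (a * x * a⁻¹)) * a := h2
      _ = a⁻¹ * g * a * x * (a⁻¹ * g * a)⁻¹ * x := by group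
  have h3 := hx _ h1
  calc g * (a * x * a⁻¹) * g⁻¹ = a * ((a⁻¹ * g * a) * x * (a⁻¹ * g * a)⁻¹) * a⁻¹ := by group
    _ = a * x * a⁻¹ := by rw [h3]

lemma Isol.sub {K : Subgroup H} {x : K} (hx : Isol (x : H)) : Isol x := by
  intro g hg
  apply Subtype.ext
  have := hx (g : H) (show (x : H) * _ = _ * (x : H) by
    have := congrArg (Subtype.val) hg.eq
    simpa using this)
  simpa using this

lemma orderOf_conj' (a x : H) : orderOf (a * x * a⁻¹) = orderOf x := by
  have : a * x * a⁻¹ = MulAut.conj a x := rfl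
  rw [this]
  exact orderOf_injective (MulAut.conj a).toMonoidHom (MulAut.conj a).injective x

lemma isPGroup_zpowers {p : ℕ} [Fact p.Prime] {x : H} (hx : orderOf x = p) :
    IsPGroup p (zpowers x) := by
  apply IsPGroup.of_card (n := 1)
  rw [Nat.card_zpowers, hx, pow_one]

/-- an isolated element of a `p`-subgroup is central in it -/
lemma Isol.comm_of_pGroup [Finite H] {x : H} (hx : Isol x) {p : ℕ} [Fact p.Prime]
    {P : Subgroup H} (hP : IsPGroup p P) (hxP : x ∈ P) {u : H} (hu : u ∈ P) : Commute x u := by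
  have : Group.IsNilpotent P := hP.isNilpotent
  have hnc := Group.normalizerCondition_of_isNilpotent (G := P)
  let x' : P := ⟨x, hxP⟩
  have hx' : Isol x' := Isol.sub (x := x') hx
  by_cases hC : centralizer {x'} = (⊤ : Subgroup P)
  · have : (⟨u, hu⟩ : P) ∈ centralizer {x'} := by rw [hC]; exact mem_top _
    rw [mem_centralizer_singleton_iff] at this
    have := congrArg Subtype.val this
    exact (show u * x = x * u by simpa using this).symm
  · exfalso
    have hlt := hnc _ (lt_top_iff_ne_top.mpr hC)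
    obtain ⟨v, hv, hv'⟩ := SetLike.exists_of_lt hlt
    apply hv'
    have h1 : x' ∈ centralizer {x'} := by rw [mem_centralizer_singleton_iff]
    have h2 : v * x' * v⁻¹ ∈ centralizer {x'} := (mem_normalizer_iff.mp hv x').mp h1
    rw [mem_centralizer_singleton_iff] at h2
    have h3 := hx' v h2.symm
    rw [mem_centralizer_singleton_iff]
    calc v * x' = (v * x' * v⁻¹) * v := by group
      _ = x' * v := by rw [h3]

lemma exists_sylow_conj [Finite H] {p : ℕ} [Fact p.Prime] {x x' : H}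
    (hx : IsPGroup p (zpowers x)) (hx' : IsPGroup p (zpowers x')) :
    ∃ (P : Sylow p H) (t : H), x ∈ P ∧ t * x' * t⁻¹ ∈ P := by
  obtain ⟨P, hP⟩ := hx.exists_le_sylow
  obtain ⟨P', hP'⟩ := hx'.exists_le_sylow
  obtain ⟨t, ht⟩ := MulAction.exists_smul_eq H P' P
  refine ⟨P, t, hP (mem_zpowers x), ?_⟩
  rw [← ht]
  have : x' ∈ P' := hP' (mem_zpowers x')
  change t * x' * t⁻¹ ∈ ((t • P' : Sylow p H) : Set H)
  rw [Sylow.coe_smul]
  exact Set.mem_smul_set.mpr ⟨x', this, rfl⟩

lemma Isol.quotient [Finite H] {p : ℕ} [Fact p.Prime] {x : H} (hx : Isol x)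
    (hxp : orderOf x = p) (N : Subgroup H) [N.Normal] : Isol (x : H ⧸ N) := by
  intro g
  obtain ⟨h, rfl⟩ := QuotientGroup.mk_surjective g
  intro hc
  -- the subgroup of elements commuting with `x` modulo `N`
  let T : Subgroup H := (centralizer {(x : H ⧸ N)}).comap (QuotientGroup.mk' N)
  have hxT : x ∈ T := by
    simp only [T, mem_comap, QuotientGroup.mk'_apply, mem_centralizer_singleton_iff]
  have hx'T : h * x * h⁻¹ ∈ T := by
    simp only [T, mem_comap, QuotientGroup.mk'_apply, mem_centralizer_singleton_iff]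
    have := hc.eq
    simpa using this.symm
  let x1 : T := ⟨x, hxT⟩
  let x2 : T := ⟨h * x * h⁻¹, hx'T⟩
  have ho1 : orderOf x1 = p := by rw [← hxp]; exact (Subgroup.orderOf_coe x1).symm
  have ho2 : orderOf x2 = p := by
    rw [← hxp, ← orderOf_conj' h x]; exact (Subgroup.orderOf_coe x2).symm
  obtain ⟨P, t, h1, h2⟩ := exists_sylow_conj (isPGroup_zpowers ho1) (isPGroup_zpowers ho2)
  have hx1 : Isol x1 := Isol.sub (x := x1) hx
  have h3 : Commute x1 (t * x2 * t⁻¹) := hx1.comm_of_pGroup P.isPGroup' h1 h2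
  have h4 : (t : H) * h * x * ((t : H) * h)⁻¹ = x := by
    apply hx
    have := congrArg Subtype.val h3.eq
    simp only [x1, x2, Subgroup.coe_mul, Subgroup.coe_inv] at this
    unfold Commute SemiconjBy
    calc x * ((t : H) * h * x * ((t : H) * h)⁻¹)
        = x * ((t : H) * (h * x * h⁻¹) * (t : H)⁻¹) := by group
      _ = ((t : H) * (h * x * h⁻¹) * (t : H)⁻¹) * x := this
      _ = (t : H) * h * x * ((t : H) * h)⁻¹ * x := by group
  have h5 : h * x * h⁻¹ = (t : H)⁻¹ * x * (t : H) := by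
    calc h * x * h⁻¹ = (t : H)⁻¹ * ((t : H) * h * x * ((t : H) * h)⁻¹) * (t : H) := by group
      _ = (t : H)⁻¹ * x * (t : H) := by rw [h4]
  have h6 : ((t : H) : H ⧸ N) * (x : H ⧸ N) = (x : H ⧸ N) * ((t : H) : H ⧸ N) := by
    have := t.2
    simp only [T, mem_comap, QuotientGroup.mk'_apply, mem_centralizer_singleton_iff] at this
    exact this
  calc (h : H ⧸ N) * (x : H ⧸ N) * (h : H ⧸ N)⁻¹ = ((h * x * h⁻¹ : H) : H ⧸ N) := by simp
    _ = (((t : H)⁻¹ * x * (t : H) : H) : H ⧸ N) := by rw [h5]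
    _ = ((t : H) : H ⧸ N)⁻¹ * ((x : H ⧸ N) * ((t : H) : H ⧸ N)) := by
        simp [mul_assoc]
    _ = (x : H ⧸ N) := by rw [← h6]; group

end basics

end Fit28
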