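import Pool.Agent.Lib.Fit_h28.GLMain

set_option autoImplicit false

namespace Fit28

open Subgroup

universe u

variable {G : Type u} [Group G]

/-- `N` is subnormal in `M` -/
def SubN (N M : Subgroup G) : Prop :=
  ∃ (n : ℕ) (f : ℕ → Subgroup G), f 0 = N ∧ f n = M ∧
    ∀ i < n, f i ≤ f (i + 1) ∧ ((f i).subgroupOf (f (i + 1))).Normal

/-- `U` is a maximal `X`-subgroup of `N` -/
def XMax (X : Subgroup G → Prop) (U N : Subgroup G) : Prop :=
  X U ∧ ∀ K, U ≤ K → K ≤ N → X K → K = U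

/-- `V ∩ M` is an injector of `M` -/
def Inj (X : Subgroup G → Prop) (M V : Subgroup G) : Prop :=
  ∀ N, SubN N M → XMax X (V ⊓ N) N

lemma normal_iff_nz {H K : Subgroup G} (h : H ≤ K) : (H.subgroupOf K).Normal ↔ Nz K H := by
  rw [Subgroup.normal_subgroupOf_iff_le_normalizer h, ← nz_iff]

lemma SubN.refl (M : Subgroup G) : SubN M M :=
  ⟨0, fun _ => M, rfl, rfl, fun i hi => absurd hi (Nat.not_lt_zero i)⟩

lemma SubN.snoc {N K M : Subgroup G} (h : SubN N K) (hK : K ≤ M) (hn : Nz M K) : SubN N M := by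
  obtain ⟨n, f, h0, h1, h2⟩ := h
  let g : ℕ → Subgroup G := fun i => if i ≤ n then f i else M
  refine ⟨n + 1, g, by simp [g, h0], by simp [g], ?_⟩
  intro i hi
  by_cases hin : i < n
  · have e1 : g i = f i := if_pos hin.le
    have e2 : g (i + 1) = f (i + 1) := if_pos hin
    rw [e1, e2]
    exact h2 i hin
  · have e : i = n := by omega
    subst e
    have e1 : g i = K := by rw [← h1]; exact if_pos le_rfl
    have e2 : g (i + 1) = M := if_neg (Nat.not_succ_le_self i)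
    rw [e1, e2]
    exact ⟨hK, (normal_iff_nz hK).mpr hn⟩

lemma SubN.of_normal {K M : Subgroup G} (hK : K ≤ M) (hn : Nz M K) : SubN K M :=
  (SubN.refl K).snoc hK hn

lemma SubN.cases {N M : Subgroup G} (h : SubN N M) :
    N = M ∨ ∃ F, F ≤ M ∧ F ≠ M ∧ Nz M F ∧ SubN N F := by
  obtain ⟨n, f, h0, h1, h2⟩ := h
  induction n generalizing M with
  | zero => left; rw [← h0, h1]
  | succ n ih =>
    have h3 := h2 n (Nat.lt_succ_self n)
    by_cases hne : f n = f (n + 1)
    · exact ih (by rw [hne, h1]) (fun i hi => h2 i (Nat.lt_succ_of_lt hi))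
    · right
      refine ⟨f n, ?_, ?_, ?_, n, f, h0, rfl, fun i hi => h2 i (Nat.lt_succ_of_lt hi)⟩
      · rw [← h1]; exact h3.1
      · rw [← h1]; exact hne
      · rw [← h1]; exact (normal_iff_nz h3.1).mp h3.2

lemma SubN.cj {N M : Subgroup G} (h : SubN N M) {d : G} (hd : d ∈ M) : SubN (cj d N) M := by
  obtain ⟨n, f, h0, h1, h2⟩ := h
  refine ⟨n, fun i => Fit28.cj d (f i), by simp only [h0], ?_, ?_⟩
  · change Fit28.cj d (f n) = M
    rw [h1, (nz_self M).cj_eq hd]
  · intro i hi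
    have h3 := h2 i hi
    refine ⟨cj_mono h3.1, ?_⟩
    rw [normal_iff_nz (cj_mono h3.1)]
    exact nz_cj ((normal_iff_nz h3.1).mp h3.2)

lemma SubN.le {N M : Subgroup G} (h : SubN N M) : N ≤ M := by
  obtain ⟨n, f, h0, h1, h2⟩ := h
  induction n generalizing M with
  | zero => rw [← h0, h1]
  | succ n ih =>
    have h3 := h2 n (Nat.lt_succ_self n)
    exact (ih rfl (fun i hi => h2 i (Nat.lt_succ_of_lt hi))).trans (h1 ▸ h3.1)

lemma Inj.congr {X : Subgroup G → Prop} {M V V' : Subgroup G} (h : Inj X M V)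
    (e : V ⊓ M = V' ⊓ M) : Inj X M V' := by
  intro N hN
  have h1 : V' ⊓ N = V ⊓ N := by
    have hle := hN.le
    calc V' ⊓ N = V' ⊓ M ⊓ N := by rw [inf_assoc, inf_eq_right.mpr hle]
      _ = V ⊓ M ⊓ N := by rw [e]
      _ = V ⊓ N := by rw [inf_assoc, inf_eq_right.mpr hle]
  rw [h1]
  exact h N hN

lemma Inj.cj {X : Subgroup G → Prop} (hX : Fam X) {M V : Subgroup G} (h : Inj X M V) {d : G}
    (hd : d ∈ M) : Inj X M (Fit28.cj d V) := by
  intro N hN
  have h1 := h _ (hN.cj (inv_mem hd))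
  have e : Fit28.cj d V ⊓ N = Fit28.cj d (V ⊓ Fit28.cj d⁻¹ N) := by
    rw [cj_inf, ← cj_mul, mul_inv_cancel, cj_one]
  rw [e]
  refine ⟨hX.conj _ _ h1.1, ?_⟩
  intro K h2 h3 h4
  have h5 := h1.2 (Fit28.cj d⁻¹ K) (by
      have := cj_mono (g := d⁻¹) h2
      rwa [cj_inv_cj] at this) (cj_mono h3) (hX.conj _ _ h4)
  rw [← h5, ← cj_mul, mul_inv_cancel, cj_one]

lemma Inj.xmax {X : Subgroup G → Prop} {M V : Subgroup G} (h : Inj X M V) : XMax X (V ⊓ M) M :=
  h M (SubN.refl M)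

lemma nz_finset_sup {ι : Type*} (s : Finset ι) (f : ι → Subgroup G) (A : Subgroup G)
    (h : ∀ i ∈ s, Nz A (f i)) : Nz A (s.sup f) := by
  classical
  induction s using Finset.induction_on with
  | empty => simp only [Finset.sup_empty]; intro a _ b hb; rw [mem_bot] at hb ⊢; rw [hb]; group
  | insert i s _ ih =>
    rw [Finset.sup_insert]
    exact (h i (Finset.mem_insert_self i s)).sup_right
      (ih fun j hj => h j (Finset.mem_insert_of_mem hj))

lemma nz_finset_sup_left {ι : Type*} (s : Finset ι) (f : ι → Subgroup G) (A : Subgroup G)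
    (h : ∀ i ∈ s, Nz (f i) A) : Nz (s.sup f) A := by
  rw [nz_iff]
  exact Finset.sup_le fun i hi => nz_iff.mp (h i hi)

end Fit28
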