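import Pool.Agent.Lib.Fit_h28.MainInd

set_option autoImplicit false

namespace Fit28

open Subgroup

universe u

variable {G : Type u} [Group G] [Finite G]

/-- One step of Claim B: make `Y` commute with one more subgroup `V ∩ F'`. -/
lemma claimB_step {X : Subgroup G → Prop} (hX : Fam X)
    (hbad : ∀ p q, p.Prime → q.Prime → p ≠ q → HasIdx X p → HasIdx X q → ¬ BadSec G p q)
    {M M' V : Subgroup G} (hXV : X V) (hVM : V ≤ M) (hM'M : M' ≤ M) (nM' : Nz M M')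
    (𝓕 : Finset (Subgroup G)) (h𝓕 : ∀ F ∈ 𝓕, F ≤ M ∧ Nz M F) (hInj : ∀ F ∈ 𝓕, Inj X F V)
    (𝓢 : Finset (Subgroup G)) (h𝓢 : 𝓢 ⊆ 𝓕) {F' : Subgroup G} (hF' : F' ∈ 𝓕)
    {Y : Subgroup G} (hXY : X Y) (hYM' : Y ≤ M') (hYI : Inj X M' Y)
    (hYF : ∀ F ∈ 𝓕, Y ⊓ F = V ⊓ (F ⊓ M'))
    (hYS : ∀ F ∈ 𝓢, Cm (V ⊓ F) Y (V ⊓ (F ⊓ M'))) :
    ∃ Y' : Subgroup G, X Y' ∧ Y' ≤ M' ∧ Inj X M' Y' ∧ (∀ F ∈ 𝓕, Y' ⊓ F = V ⊓ (F ⊓ M')) ∧
      (∀ F ∈ 𝓢, Cm (V ⊓ F) Y' (V ⊓ (F ⊓ M'))) ∧ Cm (V ⊓ F') Y' (V ⊓ (F' ⊓ M')) := by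
  classical
  have hYM : Y ≤ M := hYM'.trans hM'M
  set C : Subgroup G := 𝓕.sup (fun F => V ⊓ (F ⊓ M')) with hC
  set S : Subgroup G := 𝓢.sup (fun F => V ⊓ F) with hS
  set E : Subgroup G := S ⊔ C with hE
  have hCV : C ≤ V := Finset.sup_le fun F _ => inf_le_left
  have hSV : S ≤ V := Finset.sup_le fun F _ => inf_le_left
  have hEV : E ≤ V := sup_le hSV hCV
  have hCE : ∀ F ∈ 𝓕, V ⊓ (F ⊓ M') ≤ E := fun F hF =>
    (Finset.le_sup (f := fun F => V ⊓ (F ⊓ M')) hF).trans le_sup_right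
  have hSE : ∀ F ∈ 𝓢, V ⊓ F ≤ E := fun F hF =>
    (Finset.le_sup (f := fun F => V ⊓ F) hF).trans le_sup_left
  have nVF : ∀ F ∈ 𝓕, Nz V (V ⊓ F) := fun F hF => (nz_self V).inf ((h𝓕 F hF).2.mono hVM)
  have nVFM : ∀ F ∈ 𝓕, Nz V (V ⊓ (F ⊓ M')) := fun F hF =>
    (nz_self V).inf (((h𝓕 F hF).2.mono hVM).inf (nM'.mono hVM))
  have nVE : Nz V E := (nz_finset_sup _ _ _ fun F hF => nVF F (h𝓢 hF)).sup_right
    (nz_finset_sup _ _ _ nVFM)
  have hXE : X E := hX.sub _ _ hEV nVE hXV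
  have hle : ∀ F, V ⊓ (F ⊓ M') ≤ V ⊓ F := fun F => inf_le_inf_left V inf_le_left
  have nYE : Nz Y E := by
    refine (nz_finset_sup _ _ _ fun F hF => (hYS F hF).nz_left (hle F)).sup_right
      (nz_finset_sup _ _ _ fun F hF => ?_)
    rw [← hYF F hF]
    exact (nz_self Y).inf ((h𝓕 F hF).2.mono hYM)
  have hCY : C ≤ Y := Finset.sup_le fun F hF => by rw [← hYF F hF]; exact inf_le_left
  have nEY : Nz E Y := by
    refine (nz_finset_sup_left _ _ _ fun F hF => (hYS F hF).nz_right ?_).sup_left (nz_of_le hCY)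
    rw [← hYF F (h𝓢 hF)]; exact inf_le_left
  have hEM : E ≤ M := hEV.trans hVM
  set N : Subgroup G := normalizer (E : Set G) with hN
  have hVN : V ≤ N := nz_iff.mp nVE
  have hYN : Y ≤ N := nz_iff.mp nYE
  have hEN : E ≤ N := nz_iff.mp (nz_self E)
  set K : Subgroup G := F' ⊓ M' ⊓ N with hK
  have nF' : Nz M F' := (h𝓕 F' hF').2
  have nKE : Nz K E := (nz_normalizer E).mono inf_le_right
  have nVK : Nz V K := ((nF'.mono hVM).inf (nM'.mono hVM)).inf (nz_of_le hVN)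
  have nYK : Nz Y K := ((nF'.mono hYM).inf (nM'.mono hYM)).inf (nz_of_le hYN)
  set D : Subgroup G := K ⊔ E with hD
  have hED : E ≤ D := le_sup_right
  have nVD : Nz V D := nVK.sup_right nVE
  have nYD : Nz Y D := nYK.sup_right nYE
  have nED : Nz E D := nVD.mono hEV
  have hDM : D ≤ M := sup_le ((inf_le_left.trans inf_le_right).trans hM'M) hEM
  set A : Subgroup G := (V ⊓ F') ⊔ E with hA
  set B : Subgroup G := Y ⊔ E with hB
  have hAV : A ≤ V := sup_le inf_le_left hEV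
  have nBE : Nz B E := nYE.sup_left (nz_self E)
  have nBD : Nz B D := nYD.sup_left nED
  have hcVY : Cm (V ⊓ F') Y K := by
    intro v hv y hy
    refine ⟨⟨?_, ?_⟩, ?_⟩
    · have h1 := nF' y (hYM hy) _ (inv_mem hv.2)
      have e : v * y * v⁻¹ * y⁻¹ = v * (y * v⁻¹ * y⁻¹) := by group
      rw [e]
      exact mul_mem hv.2 h1
    · exact M'.mul_mem (nM' v (hVM hv.1) y (hYM' hy)) (M'.inv_mem (hYM' hy))
    · exact N.mul_mem (N.mul_mem (N.mul_mem (hVN hv.1) (hYN hy)) (N.inv_mem (hVN hv.1)))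
        (N.inv_mem (hYN hy))
  have hconf : Conf X A B D E :=
    { hEA := le_sup_right
      hEB := le_sup_right
      hED := hED
      nAE := nVE.mono hAV
      nBE := nBE
      nDE := nKE.sup_left (nz_self E)
      nAD := nVD.mono hAV
      nBD := nBD
      hc := by
        have h1 : Cm (V ⊓ F') B D := by
          refine Cm.sup_right (hcVY.mono le_rfl le_rfl le_sup_left) ?_ nYD nYE
          intro v hv e he
          exact hED (mul_mem (nVE v hv.1 e he) (inv_mem he))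
        have h2 : Cm E B D := by
          intro e he b hb
          have h3 := nBE b hb _ (inv_mem he)
          have e4 : e * b * e⁻¹ * b⁻¹ = e * (b * e⁻¹ * b⁻¹) := by group
          rw [e4]
          exact hED (mul_mem he h3)
        exact Cm.sup_left h1 h2 (nVD.mono inf_le_left) (nVE.mono inf_le_left)
      hXA := hX.sub _ _ hAV ((nVF F' hF').sup_right nVE) hXV
      hXB := hX.sup _ _ nYE nEY hXY hXE
      hgood := by
        intro F1 hXF hEF hFD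
        refine le_antisymm ?_ hEF
        have hF1M : F1 ≤ M := hFD.trans hDM
        have h1 : F1 ⊓ (F' ⊓ M') = V ⊓ (F' ⊓ M') := by
          have h2 : SubN (F' ⊓ M') F' := SubN.of_normal inf_le_left
            ((nz_self F').inf (nM'.mono (h𝓕 F' hF').1))
          refine (hInj F' hF' _ h2).2 _ ?_ inf_le_right
            (hX.sub _ _ inf_le_left ((nz_self F1).inf ((nF'.mono hF1M).inf (nM'.mono hF1M))) hXF)
          exact le_inf ((hCE F' hF').trans hEF) inf_le_right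
        intro f hf
        obtain ⟨k, hk, e, he, rfl⟩ := (mem_sup_of_nz nKE).mp (hFD hf)
        have h3 : k ∈ F1 := by
          have := mul_mem hf (inv_mem (hEF he))
          simpa using this
        have h4 : k ∈ F1 ⊓ (F' ⊓ M') := ⟨h3, hk.1⟩
        rw [h1] at h4
        exact mul_mem (hCE F' hF' h4) he }
  obtain ⟨d, hd, hcm⟩ := gl hX hbad _ A B D E rfl hconf
  obtain ⟨k, hk, e, he, rfl⟩ := (mem_sup_of_nz nKE).mp hd
  have e1 : cj (k * e) B = cj k B := by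
    rw [cj_mul, (nz_self B).cj_eq (le_sup_right (a := Y) he)]
  rw [e1] at hcm
  have hkM' : k ∈ M' := hk.1.2
  have hkM : k ∈ M := hM'M hkM'
  have hcF : ∀ F ∈ 𝓕, cj k F = F := fun F hF => (h𝓕 F hF).2.cj_eq hkM
  have hcM' : cj k M' = M' := nM'.cj_eq hkM
  have hcE : cj k E = E := nKE.cj_eq hk
  have hY'M' : cj k Y ≤ M' := by
    have := cj_mono (g := k) hYM'
    rwa [hcM'] at this
  have eC : ∀ F ∈ 𝓕, V ⊓ (F ⊓ M') = E ⊓ (F ⊓ M') := fun F hF =>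
    le_antisymm (le_inf (hCE F hF) inf_le_right) (inf_le_inf_right _ hEV)
  have eS : ∀ F ∈ 𝓢, V ⊓ F = E ⊓ F := fun F hF =>
    le_antisymm (le_inf (hSE F hF) inf_le_right) (inf_le_inf_right _ hEV)
  have cC : ∀ F ∈ 𝓕, cj k (V ⊓ (F ⊓ M')) = V ⊓ (F ⊓ M') := fun F hF => by
    rw [eC F hF, cj_inf, cj_inf, hcE, hcF F hF, hcM']
  refine ⟨cj k Y, hX.conj _ _ hXY, hY'M', hYI.cj hX hkM', ?_, ?_, ?_⟩
  · intro F hF
    have e2 : cj k Y ⊓ F = cj k (Y ⊓ F) := by rw [cj_inf, hcF F hF]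
    rw [e2, hYF F hF, cC F hF]
  · intro F hF
    have h1 := (hYS F hF).cj k
    have e2 : cj k (V ⊓ F) = V ⊓ F := by rw [eS F hF, cj_inf, hcE, hcF F (h𝓢 hF)]
    rwa [e2, cC F (h𝓢 hF)] at h1
  · intro v hv y hy
    refine ⟨hEV (hcm v (le_sup_left (b := E) hv) y (cj_mono le_sup_left hy)), ?_, ?_⟩
    · have h1 := nF' y (hM'M (hY'M' hy)) _ (inv_mem hv.2)
      have e : v * y * v⁻¹ * y⁻¹ = v * (y * v⁻¹ * y⁻¹) := by group
      rw [e]
      exact mul_mem hv.2 h1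
    · exact M'.mul_mem (nM' v (hVM hv.1) y (hY'M' hy)) (M'.inv_mem (hY'M' hy))

lemma claimB {X : Subgroup G → Prop} (hX : Fam X)
    (hbad : ∀ p q, p.Prime → q.Prime → p ≠ q → HasIdx X p → HasIdx X q → ¬ BadSec G p q)
    {M M' V : Subgroup G} (hXV : X V) (hVM : V ≤ M) (hM'M : M' ≤ M) (nM' : Nz M M')
    (𝓕 : Finset (Subgroup G)) (h𝓕 : ∀ F ∈ 𝓕, F ≤ M ∧ Nz M F) (hInj : ∀ F ∈ 𝓕, Inj X F V)
    {Y : Subgroup G} (hXY : X Y) (hYM' : Y ≤ M') (hYI : Inj X M' Y)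
    (hYF : ∀ F ∈ 𝓕, Y ⊓ F = V ⊓ (F ⊓ M')) (𝓢 : Finset (Subgroup G)) (h𝓢 : 𝓢 ⊆ 𝓕) :
    ∃ Y' : Subgroup G, X Y' ∧ Y' ≤ M' ∧ Inj X M' Y' ∧ (∀ F ∈ 𝓕, Y' ⊓ F = V ⊓ (F ⊓ M')) ∧
      (∀ F ∈ 𝓢, Cm (V ⊓ F) Y' (V ⊓ (F ⊓ M'))) := by
  classical
  induction 𝓢 using Finset.induction_on with
  | empty => exact ⟨Y, hXY, hYM', hYI, hYF, by simp⟩
  | insert F' 𝓢 _ ih =>
    have h1 : 𝓢 ⊆ 𝓕 := fun F hF => h𝓢 (Finset.mem_insert_of_mem hF)
    obtain ⟨Y', a1, a2, a3, a4, a5⟩ := ih h1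
    obtain ⟨Y'', b1, b2, b3, b4, b5, b6⟩ := claimB_step hX hbad hXV hVM hM'M nM' 𝓕 h𝓕 hInj 𝓢 h1
      (h𝓢 (Finset.mem_insert_self F' 𝓢)) a1 a2 a3 a4 a5
    refine ⟨Y'', b1, b2, b3, b4, ?_⟩
    intro F hF
    rcases Finset.mem_insert.mp hF with rfl | hF
    · exact b6
    · exact b5 F hF

/-- one step of Claim A: one more normal subgroup `M'` -/
lemma claimA_step {X : Subgroup G → Prop} (hX : Fam X)
    (hbad : ∀ p q, p.Prime → q.Prime → p ≠ q → HasIdx X p → HasIdx X q → ¬ BadSec G p q)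
    {M M' V : Subgroup G} (hXV : X V) (hVM : V ≤ M) (hM'M : M' ≤ M) (nM' : Nz M M')
    (𝓕 : Finset (Subgroup G)) (h𝓕 : ∀ F ∈ 𝓕, F ≤ M ∧ Nz M F) (hInj : ∀ F ∈ 𝓕, Inj X F V)
    {Y : Subgroup G} (hXY : X Y) (hYM' : Y ≤ M') (hYI : Inj X M' Y)
    (hYF : ∀ F ∈ 𝓕, Y ⊓ F = V ⊓ (F ⊓ M')) :
    ∃ V' : Subgroup G, X V' ∧ V' ≤ M ∧ Inj X M' V' ∧ ∀ F ∈ 𝓕, V' ⊓ F = V ⊓ F := by
  classical
  obtain ⟨Y, hXY, hYM', hYI, hYF, hYS⟩ :=
    claimB hX hbad hXV hVM hM'M nM' 𝓕 h𝓕 hInj hXY hYM' hYI hYF 𝓕 (Finset.Subset.refl _)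
  have hYM : Y ≤ M := hYM'.trans hM'M
  set E : Subgroup G := 𝓕.sup (fun F => V ⊓ F) with hE
  have hEV : E ≤ V := Finset.sup_le fun F _ => inf_le_left
  have nVE : Nz V E := nz_finset_sup _ _ _ fun F hF => (nz_self V).inf ((h𝓕 F hF).2.mono hVM)
  have hXE : X E := hX.sub _ _ hEV nVE hXV
  have hle : ∀ F, V ⊓ (F ⊓ M') ≤ V ⊓ F := fun F => inf_le_inf_left V inf_le_left
  have nYE : Nz Y E := nz_finset_sup _ _ _ fun F hF => (hYS F hF).nz_left (hle F)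
  have nEY : Nz E Y := nz_finset_sup_left _ _ _ fun F hF => (hYS F hF).nz_right (by
    rw [← hYF F hF]; exact inf_le_left)
  have hXV' : X (E ⊔ Y) := hX.sup _ _ nEY nYE hXE hXY
  have hV'M : E ⊔ Y ≤ M := sup_le (hEV.trans hVM) hYM
  refine ⟨E ⊔ Y, hXV', hV'M, ?_, ?_⟩
  · refine hYI.congr ?_
    have h1 : X ((E ⊔ Y) ⊓ M') := hX.sub _ _ inf_le_left ((nz_self _).inf (nM'.mono hV'M)) hXV'
    refine (hYI.xmax.2 _ ?_ inf_le_right h1).symm
    exact inf_le_inf_right M' le_sup_right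
  · intro F hF
    have h1 : X ((E ⊔ Y) ⊓ F) :=
      hX.sub _ _ inf_le_left ((nz_self _).inf ((h𝓕 F hF).2.mono hV'M)) hXV'
    refine (hInj F hF).xmax.2 _ ?_ inf_le_right h1
    refine le_inf ?_ inf_le_right
    exact (Finset.le_sup (f := fun F => V ⊓ F) hF).trans le_sup_left

/-- **Main induction**: injectors of a family of normal subgroups of `M`, cut out by one
`X`-subgroup, are cut out by an injector of `M`. -/
theorem main_ind {X : Subgroup G → Prop} (hX : Fam X)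
    (hbad : ∀ p q, p.Prime → q.Prime → p ≠ q → HasIdx X p → HasIdx X q → ¬ BadSec G p q)
    (n : ℕ) : ∀ (M V₀ : Subgroup G) (𝓕 : Finset (Subgroup G)), Nat.card M = n → X V₀ → V₀ ≤ M →
      (∀ F ∈ 𝓕, F ≤ M ∧ Nz M F) → (∀ F ∈ 𝓕, Inj X F V₀) →
      ∃ V, X V ∧ V ≤ M ∧ Inj X M V ∧ ∀ F ∈ 𝓕, V ⊓ F = V₀ ⊓ F := by
  classical
  induction n using Nat.strong_induction_on with
  | _ n ih =>
  intro M V₀ 𝓕 hn hXV₀ hV₀M h𝓕 hInj
  have claimA : ∀ 𝓜 : Finset (Subgroup G), (∀ F ∈ 𝓜, F ≤ M ∧ F ≠ M ∧ Nz M F) →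
      ∃ V, X V ∧ V ≤ M ∧ (∀ F ∈ 𝓕, V ⊓ F = V₀ ⊓ F) ∧ ∀ F ∈ 𝓜, Inj X F V := by
    intro 𝓜
    induction 𝓜 using Finset.induction_on with
    | empty => intro _; exact ⟨V₀, hXV₀, hV₀M, fun _ _ => rfl, by simp⟩
    | insert M' 𝓜 _ ihm =>
      intro h𝓜
      obtain ⟨V, hXV, hVM, hVF, hVI⟩ := ihm fun F hF => h𝓜 F (Finset.mem_insert_of_mem hF)
      obtain ⟨hM'M, hM'ne, nM'⟩ := h𝓜 M' (Finset.mem_insert_self M' 𝓜)
      set 𝓖 : Finset (Subgroup G) := 𝓕 ∪ 𝓜 with h𝓖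
      have hG1 : ∀ F ∈ 𝓖, F ≤ M ∧ Nz M F := by
        intro F hF
        rcases Finset.mem_union.mp hF with hF | hF
        · exact h𝓕 F hF
        · have := h𝓜 F (Finset.mem_insert_of_mem hF)
          exact ⟨this.1, this.2.2⟩
      have hG2 : ∀ F ∈ 𝓖, Inj X F V := by
        intro F hF
        rcases Finset.mem_union.mp hF with hF | hF
        · exact (hInj F hF).congr (hVF F hF).symm
        · exact hVI F hF
      have hlt : Nat.card M' < n := by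
        rw [← hn]
        have h1 : (M' : Set G) ⊂ (M : Set G) := by
          rw [Set.ssubset_iff_subset_ne]
          exact ⟨hM'M, fun h => hM'ne (SetLike.coe_injective h)⟩
        exact Set.Finite.card_lt_card (Set.toFinite _) h1
      obtain ⟨Y, hXY, hYM', hYI, hYF⟩ := ih _ hlt M' (V ⊓ M') (𝓖.image fun F => F ⊓ M') rfl
        (hX.sub _ _ inf_le_left ((nz_self V).inf (nM'.mono hVM)) hXV) inf_le_right
        (by
          intro F₁ hF₁
          obtain ⟨F, hF, rfl⟩ := Finset.mem_image.mp hF₁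
          exact ⟨inf_le_right, ((hG1 F hF).2.mono hM'M).inf (nz_self M')⟩)
        (by
          intro F₁ hF₁
          obtain ⟨F, hF, rfl⟩ := Finset.mem_image.mp hF₁
          have h1 : Inj X (F ⊓ M') V := by
            intro N hN
            exact hG2 F hF N (hN.snoc inf_le_left ((nz_self F).inf (nM'.mono (hG1 F hF).1)))
          refine h1.congr ?_
          rw [inf_assoc, inf_comm M' (F ⊓ M'), inf_assoc F M' M', inf_idem])
      have hYF' : ∀ F ∈ 𝓖, Y ⊓ F = V ⊓ (F ⊓ M') := by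
        intro F hF
        have h1 := hYF (F ⊓ M') (Finset.mem_image_of_mem _ hF)
        have h2 : Y ⊓ (F ⊓ M') = Y ⊓ F := by
          rw [inf_comm F M', ← inf_assoc, inf_eq_left.mpr hYM']
        rw [← h2, h1, inf_assoc, inf_comm M' (F ⊓ M'), inf_assoc F M' M', inf_idem]
      obtain ⟨V', c1, c2, c3, c4⟩ :=
        claimA_step hX hbad hXV hVM hM'M nM' 𝓖 hG1 hG2 hXY hYM' hYI hYF'
      refine ⟨V', c1, c2, ?_, ?_⟩
      · intro F hF
        rw [c4 F (Finset.mem_union_left _ hF), hVF F hF]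
      · intro F hF
        rcases Finset.mem_insert.mp hF with rfl | hF
        · exact c3
        · exact (hVI F hF).congr (c4 F (Finset.mem_union_right _ hF)).symm
  have : Fintype (Subgroup G) := Fintype.ofFinite _
  obtain ⟨V, hXV, hVM, hVF, hVI⟩ := claimA
    (Finset.univ.filter fun F => F ≤ M ∧ F ≠ M ∧ Nz M F) (by simp)
  obtain ⟨W, hW⟩ := Set.Finite.exists_maximal (s := {K : Subgroup G | X K ∧ V ≤ K ∧ K ≤ M})
    (Set.toFinite _) ⟨V, hXV, le_rfl, hVM⟩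
  obtain ⟨⟨hXW, hVW, hWM⟩, hmax⟩ := hW
  have key : ∀ F, F ≤ M → Nz M F → XMax X (V ⊓ F) F → W ⊓ F = V ⊓ F := by
    intro F _ hn' h1
    exact h1.2 _ (inf_le_inf_right F hVW) inf_le_right
      (hX.sub _ _ inf_le_left ((nz_self W).inf (hn'.mono hWM)) hXW)
  refine ⟨W, hXW, hWM, ?_, ?_⟩
  · intro N hN
    rcases hN.cases with rfl | ⟨F, hFM, hFne, nF, hNF⟩
    · rw [inf_eq_left.mpr hWM]
      refine ⟨hXW, ?_⟩
      intro K h1 h2 h3
      exact le_antisymm (hmax ⟨h3, hVW.trans h1, h2⟩ h1) h1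
    · have h1 : Inj X F V := hVI F (by simp [hFM, hFne, nF])
      have h2 := key F hFM nF h1.xmax
      exact (h1.congr h2.symm) N hNF
  · intro F hF
    have h1 : Inj X F V := (hInj F hF).congr (hVF F hF).symm
    rw [key F (h𝓕 F hF).1 (h𝓕 F hF).2 h1.xmax, hVF F hF]

/-- existence of injectors -/
theorem exists_inj {X : Subgroup G → Prop} (hX : Fam X)
    (hbad : ∀ p q, p.Prime → q.Prime → p ≠ q → HasIdx X p → HasIdx X q → ¬ BadSec G p q) :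
    ∃ V, Inj X ⊤ V := by
  obtain ⟨V, _, _, h, _⟩ := main_ind hX hbad _ ⊤ ⊥ ∅ rfl hX.bot bot_le (by simp) (by simp)
  exact ⟨V, h⟩

end Fit28
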